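import Mathlib

set_option autoImplicit false

/-! Definitions for MP_050cc1_an: polar dual, Neumann eigenvalues, the functional of the
question. -/

namespace Pool.Agent.Lib.MP_050cc1_an

open MeasureTheory
open scoped InnerProductSpace ContDiff

/-- Euclidean space of dimension `d`. -/
abbrev E (d : ℕ) : Type := EuclideanSpace ℝ (Fin d)

/-- The class `K_d`: bounded convex domains (open sets) that contain the origin. -/
def InK {d : ℕ} (Ω : Set (E d)) : Prop :=
  IsOpen Ω ∧ Convex ℝ Ω ∧ Bornology.IsBounded Ω ∧ (0 : E d) ∈ Ω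

/-- The polar dual `{x : x·y < 1 for all y in the closure of Ω}`. -/
def polarDual {d : ℕ} (Ω : Set (E d)) : Set (E d) :=
  {x | ∀ y ∈ closure Ω, ⟪x, y⟫_ℝ < 1}

/-- The `j`-th Neumann eigenvalue `μ_j(Ω)` (`j = 1, 2, …`, repeated by multiplicity, `μ_1 = 0`)
by the min-max principle: the infimum of all `r ≥ 0` for which there are `j` smooth functions,
linearly independent in `L²(Ω)`, such that every linear combination `u` of them satisfies
`∫_Ω |∇u|² ≤ r ∫_Ω u²`. (The operator norm of the derivative is the Euclidean norm of the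
gradient.) -/
noncomputable def neumannEig {d : ℕ} (j : ℕ) (Ω : Set (E d)) : ℝ :=
  sInf {r : ℝ | 0 ≤ r ∧ ∃ f : Fin j → E d → ℝ, (∀ i, ContDiff ℝ ∞ (f i)) ∧
    (∀ c : Fin j → ℝ, c ≠ 0 → 0 < ∫ x in Ω, (∑ i, c i * f i x) ^ 2) ∧
    ∀ c : Fin j → ℝ, ∫ x in Ω, ‖fderiv ℝ (fun y => ∑ i, c i * f i y) x‖ ^ 2 ≤
      r * ∫ x in Ω, (∑ i, c i * f i x) ^ 2}

/-- Volume. -/
noncomputable def vol {d : ℕ} (D : Set (E d)) : ℝ := (volume D).toReal

/-- The centroid of `D`. -/
noncomputable def centroid {d : ℕ} (D : Set (E d)) : E d := (vol D)⁻¹ • ∫ x in D, x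

/-- The second moment of mass of `D` about its centroid. -/
noncomputable def moment {d : ℕ} (D : Set (E d)) : ℝ := ∫ x in D, ‖x - centroid D‖ ^ 2

/-- The functional `F_n(Ω) = (μ_2 + … + μ_n)(Ω) V(Ω)^(2/d) V(Ω°)^(1+2/d) / I(Ω°)`. -/
noncomputable def F {d : ℕ} (n : ℕ) (Ω : Set (E d)) : ℝ :=
  (∑ j ∈ Finset.Icc 2 n, neumannEig j Ω) * vol Ω ^ ((2 : ℝ) / d) *
    (vol (polarDual Ω) ^ (1 + (2 : ℝ) / d) / moment (polarDual Ω))

end Pool.Agent.Lib.MP_050cc1_an
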