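import Mathlib

set_option autoImplicit false

/-! Sharp Wirtinger inequality on an interval and sharp Poincare inequality on a rectangle. -/

namespace Pool.Agent.Lib.MP_050cc1_an

open MeasureTheory Filter Topology intervalIntegral

theorem wirt_dir {a b ω : ℝ} (hab : a < b) (hω0 : 0 < ω) (hω : ω * (b - a) < Real.pi)
    {U U' : ℝ → ℝ} (hU : ∀ x, HasDerivAt U (U' x) x) (hU' : Continuous U')
    (ha : U a = 0) (hb : U b = 0) :
    ω ^ 2 * ∫ x in a..b, U x ^ 2 ≤ ∫ x in a..b, U' x ^ 2 := by
  have hUc : Continuous U := continuous_iff_continuousAt.2 fun x => (hU x).continuousAt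
  set δ := (Real.pi - ω * (b - a)) / 2 with hδ
  set φ : ℝ → ℝ := fun x => ω * (x - a) + δ with hφ
  have hφpos : ∀ x ∈ Set.Icc a b, 0 < Real.sin (φ x) := by
    intro x hx
    apply Real.sin_pos_of_pos_of_lt_pi
    · have : 0 ≤ ω * (x - a) := mul_nonneg hω0.le (by linarith [hx.1])
      simp only [hφ]
      linarith
    · have : ω * (x - a) ≤ ω * (b - a) := mul_le_mul_of_nonneg_left (by linarith [hx.2]) hω0.le
      simp only [hφ]
      linarith
  have hφc : Continuous φ := by fun_prop
  have hφd : ∀ x, HasDerivAt φ ω x := by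
    intro x
    have h : HasDerivAt (fun x => ω * (x - a) + δ) (ω * 1) x :=
      (((hasDerivAt_id' x).sub_const a).const_mul ω).add_const δ
    rw [mul_one] at h
    exact h
  set C : ℝ → ℝ := fun x => Real.cos (φ x) / Real.sin (φ x) with hC
  have hIcc : Set.uIcc a b = Set.Icc a b := Set.uIcc_of_le hab.le
  have hCc : ContinuousOn C (Set.Icc a b) := by
    apply ContinuousOn.div
    · exact (Real.continuous_cos.comp hφc).continuousOn
    · exact (Real.continuous_sin.comp hφc).continuousOn
    · intro x hx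
      exact (hφpos x hx).ne'
  set W' : ℝ → ℝ := fun x => ω * (-ω * (1 + C x ^ 2) * U x ^ 2 + 2 * C x * U x * U' x) with hW'
  have hW : ∀ x ∈ Set.uIcc a b, HasDerivAt (fun x => ω * (C x * U x ^ 2)) (W' x) x := by
    intro x hx
    rw [hIcc] at hx
    have hs := (hφpos x hx).ne'
    have h1 : HasDerivAt C ((-Real.sin (φ x) * ω * Real.sin (φ x) -
        Real.cos (φ x) * (Real.cos (φ x) * ω)) / Real.sin (φ x) ^ 2) x :=
      (hφd x).cos.div (hφd x).sin hs
    have h2 := ((h1.mul ((hU x).pow 2)).const_mul ω)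
    refine h2.congr_deriv ?_
    change _ = ω * (-ω * (1 + (Real.cos (φ x) / Real.sin (φ x)) ^ 2) * U x ^ 2 +
      2 * (Real.cos (φ x) / Real.sin (φ x)) * U x * U' x)
    simp only [hC, Pi.pow_apply]
    field_simp
    ring
  have hWc : ContinuousOn W' (Set.Icc a b) := by
    have h1 := hUc.continuousOn (s := Set.Icc a b)
    have h2 := hU'.continuousOn (s := Set.Icc a b)
    simp only [hW']
    fun_prop
  have hint : ∫ x in a..b, W' x = 0 := by
    rw [integral_eq_sub_of_hasDerivAt hW (by
      apply ContinuousOn.intervalIntegrable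
      rw [hIcc]
      exact hWc)]
    rw [ha, hb]
    ring
  have hdiff : ∫ x in a..b, (U' x ^ 2 - ω ^ 2 * U x ^ 2) =
      ∫ x in a..b, ((U' x - ω * C x * U x) ^ 2 + W' x) := by
    apply integral_congr
    intro x _
    simp only [hW']
    ring
  have hc1 : ContinuousOn (fun x => (U' x - ω * C x * U x) ^ 2) (Set.Icc a b) := by
    have h1 := hUc.continuousOn (s := Set.Icc a b)
    have h2 := hU'.continuousOn (s := Set.Icc a b)
    fun_prop
  have hi1 : IntervalIntegrable (fun x => (U' x - ω * C x * U x) ^ 2) volume a b := by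
    apply ContinuousOn.intervalIntegrable
    rw [hIcc]
    exact hc1
  have hi2 : IntervalIntegrable W' volume a b := by
    apply ContinuousOn.intervalIntegrable
    rw [hIcc]
    exact hWc
  rw [integral_add hi1 hi2, hint, add_zero] at hdiff
  have hnn : 0 ≤ ∫ x in a..b, (U' x - ω * C x * U x) ^ 2 :=
    integral_nonneg hab.le fun x _ => sq_nonneg _
  have hs : ∫ x in a..b, (U' x ^ 2 - ω ^ 2 * U x ^ 2) =
      (∫ x in a..b, U' x ^ 2) - ∫ x in a..b, ω ^ 2 * U x ^ 2 :=
    integral_sub (Continuous.intervalIntegrable (by fun_prop) _ _)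
      (Continuous.intervalIntegrable (by fun_prop) _ _)
  rw [← hdiff, hs, intervalIntegral.integral_const_mul] at hnn
  linarith

theorem wirt_neu_aux {a b ω : ℝ} (hab : a < b) (hω0 : 0 < ω) (hω : ω * (b - a) < Real.pi)
    {f f' : ℝ → ℝ} (hf : ∀ x, HasDerivAt f (f' x) x) (hf' : Continuous f')
    (h0 : ∫ x in a..b, f x = 0) :
    ω ^ 2 * ∫ x in a..b, f x ^ 2 ≤ ∫ x in a..b, f' x ^ 2 := by
  have hfc : Continuous f := continuous_iff_continuousAt.2 fun x => (hf x).continuousAt
  set U : ℝ → ℝ := fun x => ∫ t in a..x, f t with hU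
  have hUd : ∀ x, HasDerivAt U (f x) x := fun x => hfc.integral_hasStrictDerivAt a x |>.hasDerivAt
  have hUc : Continuous U := continuous_iff_continuousAt.2 fun x => (hUd x).continuousAt
  have hUa : U a = 0 := by simp [hU]
  have h1 := wirt_dir hab hω0 hω hUd hfc hUa h0
  have h2 : ∫ x in a..b, f x * f x = f b * U b - f a * U a - ∫ x in a..b, f' x * U x :=
    integral_mul_deriv_eq_deriv_mul (fun x _ => hf x) (fun x _ => hUd x)
      (hf'.intervalIntegrable _ _) (hfc.intervalIntegrable _ _)
  have hUb : U b = 0 := h0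
  rw [hUa, hUb, mul_zero, mul_zero, sub_zero, zero_sub] at h2
  have h3 : ∫ x in a..b, (-(2 * (f' x * U x))) ≤
      ∫ x in a..b, (1 / ω ^ 2 * f' x ^ 2 + ω ^ 2 * U x ^ 2) := by
    apply integral_mono_on hab.le
    · exact Continuous.intervalIntegrable (by fun_prop) _ _
    · exact Continuous.intervalIntegrable (by fun_prop) _ _
    · intro x _
      have h4 : 0 ≤ (1 / ω * f' x + ω * U x) ^ 2 := sq_nonneg _
      have h5 : (1 / ω * f' x + ω * U x) ^ 2 =
          1 / ω ^ 2 * f' x ^ 2 + ω ^ 2 * U x ^ 2 + 2 * (f' x * U x) := by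
        field_simp
        ring
      linarith
  rw [intervalIntegral.integral_neg, intervalIntegral.integral_const_mul,
    integral_add (Continuous.intervalIntegrable (by fun_prop) _ _)
      (Continuous.intervalIntegrable (by fun_prop) _ _),
    intervalIntegral.integral_const_mul, intervalIntegral.integral_const_mul] at h3
  have h6 : ∫ x in a..b, f x ^ 2 = ∫ x in a..b, f x * f x := by
    apply integral_congr
    intro x _
    simp only
    ring
  rw [h6] at h1 ⊢
  have hω2 : 0 < ω ^ 2 := by positivity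
  have h7 : ∫ x in a..b, f x * f x ≤ 1 / ω ^ 2 * ∫ x in a..b, f' x ^ 2 := by linarith
  have h8 := mul_le_mul_of_nonneg_left h7 hω2.le
  rw [← mul_assoc, mul_one_div_cancel hω2.ne', one_mul] at h8
  exact h8

/-- Sharp Wirtinger inequality for functions with mean zero. -/
theorem wirt_neu {a b : ℝ} (hab : a < b) {f f' : ℝ → ℝ} (hf : ∀ x, HasDerivAt f (f' x) x)
    (hf' : Continuous f') (h0 : ∫ x in a..b, f x = 0) :
    (Real.pi / (b - a)) ^ 2 * ∫ x in a..b, f x ^ 2 ≤ ∫ x in a..b, f' x ^ 2 := by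
  have hba : 0 < b - a := by linarith
  have hlim : Tendsto (fun ω : ℝ => ω ^ 2 * ∫ x in a..b, f x ^ 2) (𝓝[<] (Real.pi / (b - a)))
      (𝓝 ((Real.pi / (b - a)) ^ 2 * ∫ x in a..b, f x ^ 2)) := by
    apply Tendsto.mono_left _ nhdsWithin_le_nhds
    exact (Continuous.tendsto (by fun_prop) _)
  apply le_of_tendsto hlim
  have h1 : ∀ᶠ ω in 𝓝[<] (Real.pi / (b - a)), 0 < ω :=
    nhdsWithin_le_nhds (lt_mem_nhds (by positivity))
  filter_upwards [h1, self_mem_nhdsWithin] with ω hω hω'
  apply wirt_neu_aux hab hω _ hf hf' h0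
  rw [Set.mem_Iio, lt_div_iff₀ hba] at hω'
  exact hω'

/-- The variance form. -/
theorem wirt_var {a b : ℝ} (hab : a < b) {f f' : ℝ → ℝ} (hf : ∀ x, HasDerivAt f (f' x) x)
    (hf' : Continuous f') :
    (Real.pi / (b - a)) ^ 2 * ((∫ x in a..b, f x ^ 2) - (∫ x in a..b, f x) ^ 2 / (b - a)) ≤
      ∫ x in a..b, f' x ^ 2 := by
  have hfc : Continuous f := continuous_iff_continuousAt.2 fun x => (hf x).continuousAt
  have hba : 0 < b - a := by linarith
  set m := (∫ x in a..b, f x) / (b - a) with hm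
  have h1 : ∫ x in a..b, (f x - m) = 0 := by
    rw [integral_sub (hfc.intervalIntegrable _ _) (by simp), intervalIntegral.integral_const,
      smul_eq_mul, hm]
    field_simp
    ring
  have h2 := wirt_neu hab (f := fun x => f x - m) (f' := f') (fun x => (hf x).sub_const m) hf' h1
  have h3 : ∫ x in a..b, (f x - m) ^ 2 = (∫ x in a..b, f x ^ 2) -
      (∫ x in a..b, f x) ^ 2 / (b - a) := by
    have h4 : ∀ x, (f x - m) ^ 2 = (f x ^ 2 - 2 * m * f x) + m ^ 2 := fun x => by ring
    simp only [h4]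
    have h5 : ∫ x in a..b, ((f x ^ 2 - 2 * m * f x) + m ^ 2) =
        (∫ x in a..b, (f x ^ 2 - 2 * m * f x)) + ∫ _ in a..b, m ^ 2 :=
      integral_add (Continuous.intervalIntegrable (by fun_prop) _ _)
        (Continuous.intervalIntegrable (by fun_prop) _ _)
    have h6 : ∫ x in a..b, (f x ^ 2 - 2 * m * f x) =
        (∫ x in a..b, f x ^ 2) - ∫ x in a..b, 2 * m * f x :=
      integral_sub (Continuous.intervalIntegrable (by fun_prop) _ _)
        (Continuous.intervalIntegrable (by fun_prop) _ _)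
    rw [h5, h6, intervalIntegral.integral_const_mul, intervalIntegral.integral_const, smul_eq_mul]
    have h7 : ∫ x in a..b, f x = m * (b - a) := by
      rw [hm, div_mul_cancel₀ _ hba.ne']
    rw [h7]
    field_simp
    ring
  rw [h3] at h2
  exact h2

end Pool.Agent.Lib.MP_050cc1_an
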