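import Mathlib
import Pool.Agent.Lib.MP_050cc1_an.Wirtinger

set_option autoImplicit false

/-! Sharp Poincare inequality on a rectangle. -/

namespace Pool.Agent.Lib.MP_050cc1_an

open MeasureTheory Filter Topology intervalIntegral

theorem cont_sq {F : ℝ → ℝ → ℝ} (h : Continuous (Function.uncurry F)) :
    Continuous (Function.uncurry fun x y => F x y ^ 2) := by
  have h1 : (Function.uncurry fun x y => F x y ^ 2) = fun p => (Function.uncurry F p) ^ 2 := by
    funext p
    rfl
  rw [h1]
  fun_prop

theorem swap_cont {F : ℝ → ℝ → ℝ} (hF : Continuous (Function.uncurry F)) (a b c d : ℝ) :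
    ∫ x in a..b, ∫ y in c..d, F x y = ∫ y in c..d, ∫ x in a..b, F x y := by
  apply intervalIntegral_intervalIntegral_swap
  apply IntegrableOn.mono_set (t := Set.uIcc a b ×ˢ Set.uIcc c d)
  · exact hF.continuousOn.integrableOn_compact (isCompact_uIcc.prod isCompact_uIcc)
  · exact Set.prod_mono Set.uIoc_subset_uIcc Set.uIoc_subset_uIcc

theorem bessel {a b c d : ℝ} (hab : a < b) (hcd : c < d) {g : ℝ → ℝ → ℝ}
    (hg : Continuous (Function.uncurry g)) (h0 : ∫ y in c..d, ∫ x in a..b, g x y = 0) :
    (∫ y in c..d, (∫ x in a..b, g x y) ^ 2 / (b - a)) +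
      (∫ x in a..b, (∫ y in c..d, g x y) ^ 2 / (d - c)) ≤
      ∫ y in c..d, ∫ x in a..b, g x y ^ 2 := by
  have hba : 0 < b - a := by linarith
  have hdc : 0 < d - c := by linarith
  set M1 : ℝ → ℝ := fun y => ∫ x in a..b, g x y with hM1
  set M2 : ℝ → ℝ := fun x => ∫ y in c..d, g x y with hM2
  have hM1c : Continuous M1 := by
    have : Continuous (Function.uncurry (fun y x => g x y)) := hg.comp continuous_swap
    exact continuous_parametric_intervalIntegral_of_continuous' this a b
  have hM2c : Continuous M2 := continuous_parametric_intervalIntegral_of_continuous' hg c d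
  have hgy : ∀ y, Continuous (fun x => g x y) := fun y => hg.comp (by fun_prop : Continuous fun x =>
    (x, y))
  have hI2 : ∫ x in a..b, M2 x = 0 := by
    rw [← h0]
    exact swap_cont hg a b c d
  -- the square of the residual
  have hinner : ∀ y, ∫ x in a..b, (g x y - M1 y / (b - a) - M2 x / (d - c)) ^ 2 =
      (∫ x in a..b, g x y ^ 2) - M1 y ^ 2 / (b - a) - 2 / (d - c) * (∫ x in a..b, g x y * M2 x) +
      (∫ x in a..b, M2 x ^ 2) / (d - c) ^ 2 := by
    intro y
    have hgyc := hgy y
    have e1 : ∀ x, (g x y - M1 y / (b - a) - M2 x / (d - c)) ^ 2 =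
        g x y ^ 2 + (-2 * (M1 y / (b - a))) * g x y + (-2 / (d - c)) * (g x y * M2 x) +
        (M1 y / (b - a)) ^ 2 + (1 / (d - c) ^ 2) * M2 x ^ 2 +
        (2 * (M1 y / (b - a)) / (d - c)) * M2 x := by
      intro x
      field_simp
      ring
    simp only [e1]
    rw [intervalIntegral.integral_add (Continuous.intervalIntegrable (by fun_prop) _ _)
        (Continuous.intervalIntegrable (by fun_prop) _ _),
      intervalIntegral.integral_add (Continuous.intervalIntegrable (by fun_prop) _ _)
        (Continuous.intervalIntegrable (by fun_prop) _ _),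
      intervalIntegral.integral_add (Continuous.intervalIntegrable (by fun_prop) _ _)
        (Continuous.intervalIntegrable (by fun_prop) _ _),
      intervalIntegral.integral_add (Continuous.intervalIntegrable (by fun_prop) _ _)
        (Continuous.intervalIntegrable (by fun_prop) _ _),
      intervalIntegral.integral_add (Continuous.intervalIntegrable (by fun_prop) _ _)
        (Continuous.intervalIntegrable (by fun_prop) _ _)]
    simp only [intervalIntegral.integral_const_mul, intervalIntegral.integral_const, smul_eq_mul]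
    rw [hI2]
    have e2 : ∫ x in a..b, g x y = M1 y := rfl
    rw [e2]
    field_simp
    ring
  have hnn : 0 ≤ ∫ y in c..d, ∫ x in a..b, (g x y - M1 y / (b - a) - M2 x / (d - c)) ^ 2 :=
    intervalIntegral.integral_nonneg hcd.le fun y _ =>
      intervalIntegral.integral_nonneg hab.le fun x _ => sq_nonneg _
  simp only [hinner] at hnn
  have c1 : Continuous fun y => ∫ x in a..b, g x y ^ 2 :=
    continuous_parametric_intervalIntegral_of_continuous'
      (f := fun y x => g x y ^ 2) (by
        have : Continuous (Function.uncurry (fun y x => g x y)) := hg.comp continuous_swap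
        exact this.pow 2) a b
  have c2 : Continuous fun y => ∫ x in a..b, g x y * M2 x :=
    continuous_parametric_intervalIntegral_of_continuous'
      (f := fun y x => g x y * M2 x) (by
        have : Continuous (Function.uncurry (fun y x => g x y)) := hg.comp continuous_swap
        exact this.mul (hM2c.comp continuous_snd)) a b
  have hswap : ∫ y in c..d, ∫ x in a..b, g x y * M2 x = ∫ x in a..b, M2 x ^ 2 := by
    rw [← swap_cont (F := fun x y => g x y * M2 x) (by
      exact hg.mul (hM2c.comp continuous_fst)) a b c d]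
    apply intervalIntegral.integral_congr
    intro x _
    simp only
    rw [intervalIntegral.integral_mul_const]
    change M2 x * M2 x = M2 x ^ 2
    ring
  have hsum : ∫ y in c..d, ((∫ x in a..b, g x y ^ 2) - M1 y ^ 2 / (b - a) -
      2 / (d - c) * (∫ x in a..b, g x y * M2 x) + (∫ x in a..b, M2 x ^ 2) / (d - c) ^ 2) =
      (∫ y in c..d, ∫ x in a..b, g x y ^ 2) - (∫ y in c..d, M1 y ^ 2 / (b - a)) -
      2 / (d - c) * (∫ x in a..b, M2 x ^ 2) + (∫ x in a..b, M2 x ^ 2) / (d - c) := by
    rw [intervalIntegral.integral_add (Continuous.intervalIntegrable (by fun_prop) _ _)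
        (Continuous.intervalIntegrable (by fun_prop) _ _),
      intervalIntegral.integral_sub (Continuous.intervalIntegrable (by fun_prop) _ _)
        (Continuous.intervalIntegrable (by fun_prop) _ _),
      intervalIntegral.integral_sub (Continuous.intervalIntegrable (by fun_prop) _ _)
        (Continuous.intervalIntegrable (by fun_prop) _ _),
      intervalIntegral.integral_const_mul, hswap, intervalIntegral.integral_const, smul_eq_mul]
    field_simp
  rw [hsum] at hnn
  have e3 : ∫ x in a..b, (∫ y in c..d, g x y) ^ 2 / (d - c) =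
      (∫ x in a..b, M2 x ^ 2) / (d - c) := by
    rw [intervalIntegral.integral_div]
  rw [e3]
  have e4 : 2 / (d - c) * (∫ x in a..b, M2 x ^ 2) = 2 * ((∫ x in a..b, M2 x ^ 2) / (d - c)) := by
    ring
  rw [e4] at hnn
  linarith

/-- Sharp Poincare inequality on a rectangle. -/
theorem poincare {a b c d L : ℝ} (hab : a < b) (hcd : c < d) (hL1 : b - a ≤ L) (hL2 : d - c ≤ L)
    {g gx gy : ℝ → ℝ → ℝ} (hg : Continuous (Function.uncurry g))
    (hgx : Continuous (Function.uncurry gx)) (hgy : Continuous (Function.uncurry gy))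
    (hx : ∀ x y, HasDerivAt (fun t => g t y) (gx x y) x)
    (hy : ∀ x y, HasDerivAt (fun t => g x t) (gy x y) y)
    (h0 : ∫ y in c..d, ∫ x in a..b, g x y = 0) :
    (Real.pi / L) ^ 2 * ∫ y in c..d, ∫ x in a..b, g x y ^ 2 ≤
      ∫ y in c..d, ∫ x in a..b, (gx x y ^ 2 + gy x y ^ 2) := by
  have hba : 0 < b - a := by linarith
  have hdc : 0 < d - c := by linarith
  have hL : 0 < L := by linarith
  have hB := bessel hab hcd hg h0
  have hgs : Continuous (Function.uncurry (fun y x => g x y)) := hg.comp continuous_swap
  have hgxs : Continuous (Function.uncurry (fun y x => gx x y)) := hgx.comp continuous_swap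
  have hgys : Continuous (Function.uncurry (fun y x => gy x y)) := hgy.comp continuous_swap
  have k1 : Continuous fun y => ∫ x in a..b, g x y ^ 2 :=
    continuous_parametric_intervalIntegral_of_continuous' (f := fun y x => g x y ^ 2)
      (cont_sq hgs) a b
  have k2 : Continuous fun y => ∫ x in a..b, g x y :=
    continuous_parametric_intervalIntegral_of_continuous' hgs a b
  have k3 : Continuous fun y => ∫ x in a..b, gx x y ^ 2 :=
    continuous_parametric_intervalIntegral_of_continuous' (f := fun y x => gx x y ^ 2)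
      (cont_sq hgxs) a b
  have k4 : Continuous fun y => ∫ x in a..b, gy x y ^ 2 :=
    continuous_parametric_intervalIntegral_of_continuous' (f := fun y x => gy x y ^ 2)
      (cont_sq hgys) a b
  have k5 : Continuous fun x => ∫ y in c..d, g x y ^ 2 :=
    continuous_parametric_intervalIntegral_of_continuous' (f := fun x y => g x y ^ 2)
      (cont_sq hg) c d
  have k6 : Continuous fun x => ∫ y in c..d, g x y :=
    continuous_parametric_intervalIntegral_of_continuous' hg c d
  have k7 : Continuous fun x => ∫ y in c..d, gy x y ^ 2 :=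
    continuous_parametric_intervalIntegral_of_continuous' (f := fun x y => gy x y ^ 2)
      (cont_sq hgy) c d
  -- the two one-dimensional inequalities
  have h1 : (Real.pi / (b - a)) ^ 2 * ((∫ y in c..d, ∫ x in a..b, g x y ^ 2) -
      ∫ y in c..d, (∫ x in a..b, g x y) ^ 2 / (b - a)) ≤
      ∫ y in c..d, ∫ x in a..b, gx x y ^ 2 := by
    rw [← intervalIntegral.integral_sub (k1.intervalIntegrable _ _)
      (Continuous.intervalIntegrable (by fun_prop) _ _), ← intervalIntegral.integral_const_mul]
    apply intervalIntegral.integral_mono_on hcd.le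
    · exact Continuous.intervalIntegrable (by fun_prop) _ _
    · exact k3.intervalIntegrable _ _
    · intro y _
      exact wirt_var hab (fun x => hx x y) (hgxs.comp (by fun_prop : Continuous fun x => (y, x)))
  have h2 : (Real.pi / (d - c)) ^ 2 * ((∫ x in a..b, ∫ y in c..d, g x y ^ 2) -
      ∫ x in a..b, (∫ y in c..d, g x y) ^ 2 / (d - c)) ≤
      ∫ x in a..b, ∫ y in c..d, gy x y ^ 2 := by
    rw [← intervalIntegral.integral_sub (k5.intervalIntegrable _ _)
      (Continuous.intervalIntegrable (by fun_prop) _ _), ← intervalIntegral.integral_const_mul]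
    apply intervalIntegral.integral_mono_on hab.le
    · exact Continuous.intervalIntegrable (by fun_prop) _ _
    · exact k7.intervalIntegrable _ _
    · intro x _
      exact wirt_var hcd (fun y => hy x y) (hgy.comp (by fun_prop : Continuous fun y => (x, y)))
  rw [swap_cont (F := fun x y => g x y ^ 2) (cont_sq hg) a b c d,
    swap_cont (F := fun x y => gy x y ^ 2) (cont_sq hgy) a b c d] at h2
  -- nonnegativity of the variances
  have hsq : ∀ {α β : ℝ} (hαβ : α < β) {f : ℝ → ℝ} (hf : Continuous f),
      (∫ x in α..β, f x) ^ 2 / (β - α) ≤ ∫ x in α..β, f x ^ 2 := by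
    intro α β hαβ f hf
    have hβα : 0 < β - α := by linarith
    set m := (∫ x in α..β, f x) / (β - α) with hm
    have h3 : 0 ≤ ∫ x in α..β, (f x - m) ^ 2 :=
      intervalIntegral.integral_nonneg hαβ.le fun x _ => sq_nonneg _
    have h4 : ∀ x, (f x - m) ^ 2 = (f x ^ 2 - 2 * m * f x) + m ^ 2 := fun x => by ring
    simp only [h4] at h3
    have h5 : ∫ x in α..β, ((f x ^ 2 - 2 * m * f x) + m ^ 2) =
        (∫ x in α..β, (f x ^ 2 - 2 * m * f x)) + ∫ _ in α..β, m ^ 2 :=
      integral_add (Continuous.intervalIntegrable (by fun_prop) _ _)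
        (Continuous.intervalIntegrable (by fun_prop) _ _)
    have h6 : ∫ x in α..β, (f x ^ 2 - 2 * m * f x) =
        (∫ x in α..β, f x ^ 2) - ∫ x in α..β, 2 * m * f x :=
      integral_sub (Continuous.intervalIntegrable (by fun_prop) _ _)
        (Continuous.intervalIntegrable (by fun_prop) _ _)
    have h7 : ∫ x in α..β, f x = m * (β - α) := by
      rw [hm, div_mul_cancel₀ _ hβα.ne']
    rw [h5, h6, intervalIntegral.integral_const_mul, intervalIntegral.integral_const,
      smul_eq_mul, h7] at h3
    rw [h7]
    have h8 : (m * (β - α)) ^ 2 / (β - α) = m ^ 2 * (β - α) := by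
      field_simp
    rw [h8]
    linarith
  have hA1 : 0 ≤ (∫ y in c..d, ∫ x in a..b, g x y ^ 2) -
      ∫ y in c..d, (∫ x in a..b, g x y) ^ 2 / (b - a) := by
    rw [sub_nonneg]
    apply intervalIntegral.integral_mono_on hcd.le
    · exact Continuous.intervalIntegrable (by fun_prop) _ _
    · exact k1.intervalIntegrable _ _
    · intro y _
      exact hsq hab (hgs.comp (by fun_prop : Continuous fun x => (y, x)))
  have hA2 : 0 ≤ (∫ y in c..d, ∫ x in a..b, g x y ^ 2) -
      ∫ x in a..b, (∫ y in c..d, g x y) ^ 2 / (d - c) := by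
    rw [sub_nonneg, ← swap_cont (F := fun x y => g x y ^ 2) (cont_sq hg) a b c d]
    apply intervalIntegral.integral_mono_on hab.le
    · exact Continuous.intervalIntegrable (by fun_prop) _ _
    · exact k5.intervalIntegrable _ _
    · intro x _
      exact hsq hcd (hg.comp (by fun_prop : Continuous fun y => (x, y)))
  have hp1 : (Real.pi / L) ^ 2 ≤ (Real.pi / (b - a)) ^ 2 := by
    apply pow_le_pow_left₀ (by positivity)
    exact div_le_div_of_nonneg_left Real.pi_pos.le hba hL1
  have hp2 : (Real.pi / L) ^ 2 ≤ (Real.pi / (d - c)) ^ 2 := by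
    apply pow_le_pow_left₀ (by positivity)
    exact div_le_div_of_nonneg_left Real.pi_pos.le hdc hL2
  have hfin : ∫ y in c..d, ∫ x in a..b, (gx x y ^ 2 + gy x y ^ 2) =
      (∫ y in c..d, ∫ x in a..b, gx x y ^ 2) + ∫ y in c..d, ∫ x in a..b, gy x y ^ 2 := by
    rw [← intervalIntegral.integral_add (k3.intervalIntegrable _ _) (k4.intervalIntegrable _ _)]
    apply intervalIntegral.integral_congr
    intro y _
    simp only
    rw [intervalIntegral.integral_add]
    · exact ((cont_sq hgxs).comp (by fun_prop : Continuous fun x => (y, x))).intervalIntegrable _ _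
    · exact ((cont_sq hgys).comp (by fun_prop : Continuous fun x => (y, x))).intervalIntegrable _ _
  rw [hfin]
  set S := ∫ y in c..d, ∫ x in a..b, g x y ^ 2
  set T1 := ∫ y in c..d, (∫ x in a..b, g x y) ^ 2 / (b - a)
  set T2 := ∫ x in a..b, (∫ y in c..d, g x y) ^ 2 / (d - c)
  have h3 : (Real.pi / L) ^ 2 * (S - T1) ≤ (Real.pi / (b - a)) ^ 2 * (S - T1) :=
    mul_le_mul_of_nonneg_right hp1 hA1
  have h4 : (Real.pi / L) ^ 2 * (S - T2) ≤ (Real.pi / (d - c)) ^ 2 * (S - T2) :=
    mul_le_mul_of_nonneg_right hp2 hA2
  have h5 : (Real.pi / L) ^ 2 * S ≤ (Real.pi / L) ^ 2 * ((S - T1) + (S - T2)) := by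
    apply mul_le_mul_of_nonneg_left _ (by positivity)
    linarith
  rw [mul_add] at h5
  linarith

end Pool.Agent.Lib.MP_050cc1_an
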