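import Mathlib
import Pool.Agent.Lib.MP_050cc1_an.Defs

set_option autoImplicit false

/-! Transfer of integrals from the Euclidean plane to the product plane. -/

namespace Pool.Agent.Lib.MP_050cc1_an

open MeasureTheory
open scoped InnerProductSpace ContDiff

/-- the point with coordinates `(a, b)` -/
noncomputable def pt (a b : ℝ) : E 2 := !₂[a, b]

@[simp] theorem pt_zero (a b : ℝ) : pt a b 0 = a := by simp [pt]

@[simp] theorem pt_one (a b : ℝ) : pt a b 1 = b := by simp [pt]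

theorem pt_eta (x : E 2) : pt (x 0) (x 1) = x := by
  ext i
  fin_cases i <;> simp

noncomputable def ptE : ℝ × ℝ ≃ᵐ E 2 :=
  (MeasurableEquiv.finTwoArrow (α := ℝ)).symm.trans (MeasurableEquiv.toLp 2 (Fin 2 → ℝ))

theorem ptE_apply (p : ℝ × ℝ) : ptE p = pt p.1 p.2 := by
  ext i
  fin_cases i <;> rfl

theorem ptE_mp : MeasurePreserving ptE :=
  (volume_preserving_finTwoArrow ℝ).symm.trans
    (EuclideanSpace.volume_preserving_symm_measurableEquiv_toLp (Fin 2)).symm

theorem continuous_pt : Continuous fun p : ℝ × ℝ => pt p.1 p.2 := by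
  unfold pt
  fun_prop

theorem integral_transfer (g : E 2 → ℝ) : ∫ x, g x = ∫ p : ℝ × ℝ, g (pt p.1 p.2) := by
  have h := (ptE_mp.integral_comp ptE.measurableEmbedding g)
  rw [← h]
  simp only [ptE_apply]

theorem setIntegral_transfer (g : E 2 → ℝ) (s : Set (E 2)) :
    ∫ x in s, g x = ∫ p in {p : ℝ × ℝ | pt p.1 p.2 ∈ s}, g (pt p.1 p.2) := by
  have h := (ptE_mp.setIntegral_preimage_emb ptE.measurableEmbedding g s)
  rw [← h]
  have h2 : (ptE ⁻¹' s) = {p : ℝ × ℝ | pt p.1 p.2 ∈ s} := by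
    ext p
    simp only [Set.mem_preimage, ptE_apply, Set.mem_ofPred_eq]
  rw [h2]
  simp only [ptE_apply]

/-- open rectangle -/
def rect (a b c d : ℝ) : Set (E 2) := {x | a < x 0 ∧ x 0 < b ∧ c < x 1 ∧ x 1 < d}

theorem isOpen_rect (a b c d : ℝ) : IsOpen (rect a b c d) := by
  have h0 : Continuous fun x : E 2 => x 0 := by fun_prop
  have h1 : Continuous fun x : E 2 => x 1 := by fun_prop
  exact (isOpen_lt continuous_const h0).inter ((isOpen_lt h0 continuous_const).inter
    ((isOpen_lt continuous_const h1).inter (isOpen_lt h1 continuous_const)))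

theorem rect_int {a b c d : ℝ} (hab : a ≤ b) (hcd : c ≤ d) {g : E 2 → ℝ} (hg : Continuous g) :
    ∫ x in rect a b c d, g x = ∫ y in c..d, ∫ x in a..b, g (pt x y) := by
  rw [setIntegral_transfer]
  have h1 : {p : ℝ × ℝ | pt p.1 p.2 ∈ rect a b c d} = Set.Ioo a b ×ˢ Set.Ioo c d := by
    ext p
    simp only [rect, Set.mem_ofPred_eq, pt_zero, pt_one, Set.mem_prod, Set.mem_Ioo]
    tauto
  rw [h1]
  have hgc : Continuous fun p : ℝ × ℝ => g (pt p.1 p.2) := hg.comp continuous_pt
  have hint : IntegrableOn (fun p : ℝ × ℝ => g (pt p.2 p.1)) (Set.Ioo c d ×ˢ Set.Ioo a b) := by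
    apply IntegrableOn.mono_set (t := Set.Icc c d ×ˢ Set.Icc a b)
    · exact (hgc.comp continuous_swap).continuousOn.integrableOn_compact
        (isCompact_Icc.prod isCompact_Icc)
    · exact Set.prod_mono Set.Ioo_subset_Icc_self Set.Ioo_subset_Icc_self
  rw [Measure.volume_eq_prod, ← setIntegral_prod_swap]
  have h2 := setIntegral_prod (fun p : ℝ × ℝ => g (pt p.2 p.1)) (by
    rw [← Measure.volume_eq_prod]; exact hint)
  simp only [Prod.fst_swap, Prod.snd_swap]
  rw [h2, intervalIntegral.integral_of_le hcd, ← integral_Ioc_eq_integral_Ioo]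
  congr 1
  funext y
  rw [intervalIntegral.integral_of_le hab, ← integral_Ioc_eq_integral_Ioo]

theorem norm_sq_dual (L : E 2 →L[ℝ] ℝ) : ‖L‖ ^ 2 = L (pt 1 0) ^ 2 + L (pt 0 1) ^ 2 := by
  set v := (InnerProductSpace.toDual ℝ (E 2)).symm L with hv
  have h1 : ∀ w, L w = ⟪v, w⟫_ℝ := fun w => by rw [hv, InnerProductSpace.toDual_symm_apply]
  have h2 : ‖L‖ = ‖v‖ := by rw [hv, LinearIsometryEquiv.norm_map]
  rw [h2, EuclideanSpace.norm_sq_eq, h1, h1]
  simp [Fin.sum_univ_two, PiLp.inner_apply]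

end Pool.Agent.Lib.MP_050cc1_an
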