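import Mathlib
import Pool.Agent.Lib.MP_050cc1_an.Defs
import Pool.Agent.Lib.MP_050cc1_an.Transfer
import Pool.Agent.Lib.MP_050cc1_an.Poincare

set_option autoImplicit false

/-! Lower bounds for Neumann eigenvalues of rectangles. -/

namespace Pool.Agent.Lib.MP_050cc1_an

open MeasureTheory
open scoped InnerProductSpace ContDiff

/-- the set in the definition of the eigenvalue -/
def eigSet {d : ℕ} (j : ℕ) (Ω : Set (E d)) : Set ℝ :=
  {r : ℝ | 0 ≤ r ∧ ∃ f : Fin j → E d → ℝ, (∀ i, ContDiff ℝ ∞ (f i)) ∧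
    (∀ c : Fin j → ℝ, c ≠ 0 → 0 < ∫ x in Ω, (∑ i, c i * f i x) ^ 2) ∧
    ∀ c : Fin j → ℝ, ∫ x in Ω, ‖fderiv ℝ (fun y => ∑ i, c i * f i y) x‖ ^ 2 ≤
      r * ∫ x in Ω, (∑ i, c i * f i x) ^ 2}

theorem neumannEig_eq {d : ℕ} (j : ℕ) (Ω : Set (E d)) : neumannEig j Ω = sInf (eigSet j Ω) := rfl

theorem eigSet_bdd {d : ℕ} (j : ℕ) (Ω : Set (E d)) : BddBelow (eigSet j Ω) :=
  ⟨0, fun _ hr => hr.1⟩

theorem eigSet_mono {d : ℕ} (j : ℕ) (Ω : Set (E d)) : eigSet (j + 1) Ω ⊆ eigSet j Ω := by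
  rintro r ⟨hr, f, hf, hpos, hle⟩
  refine ⟨hr, fun i => f i.castSucc, fun i => hf _, ?_, ?_⟩
  · intro c hc
    have h := hpos (Fin.snoc c 0) (by
      intro h0
      apply hc
      funext i
      have := congrFun h0 i.castSucc
      simpa using this)
    simpa [Fin.sum_univ_castSucc] using h
  · intro c
    have h := hle (Fin.snoc c 0)
    simpa [Fin.sum_univ_castSucc] using h

theorem eig_mono {d : ℕ} (j : ℕ) (Ω : Set (E d)) (h : (eigSet (j + 1) Ω).Nonempty) :
    neumannEig j Ω ≤ neumannEig (j + 1) Ω := by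
  rw [neumannEig_eq, neumannEig_eq]
  exact csInf_le_csInf (eigSet_bdd _ _) h (eigSet_mono _ _)

theorem eig_nonneg {d : ℕ} (j : ℕ) (Ω : Set (E d)) : 0 ≤ neumannEig j Ω := by
  rw [neumannEig_eq]
  exact Real.sInf_nonneg fun r hr => hr.1

theorem ker_exists {j k : ℕ} (hkj : k < j) (A : Fin k → Fin j → ℝ) :
    ∃ c : Fin j → ℝ, c ≠ 0 ∧ ∀ l, ∑ i, c i * A l i = 0 := by
  have h := LinearMap.ker_ne_bot_of_finrank_lt (f := (Matrix.of A).mulVecLin) (by
    simpa using hkj)
  obtain ⟨c, hc, hc0⟩ := (Submodule.ne_bot_iff _).1 h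
  refine ⟨c, hc0, fun l => ?_⟩
  have := congrFun (LinearMap.mem_ker.1 hc) l
  simp only [Matrix.mulVecLin_apply, Matrix.mulVec, dotProduct, Matrix.of_apply,
    Pi.zero_apply] at this
  rw [← this]
  exact Finset.sum_congr rfl fun i _ => mul_comm _ _

theorem eig_lower {j : ℕ} {Ω : Set (E 2)} {m : ℝ} (hne : (eigSet j Ω).Nonempty)
    (H : ∀ f : Fin j → E 2 → ℝ, (∀ i, ContDiff ℝ ∞ (f i)) → ∃ c : Fin j → ℝ, c ≠ 0 ∧
      m * ∫ x in Ω, (∑ i, c i * f i x) ^ 2 ≤
        ∫ x in Ω, ‖fderiv ℝ (fun y => ∑ i, c i * f i y) x‖ ^ 2) :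
    m ≤ neumannEig j Ω := by
  rw [neumannEig_eq]
  apply le_csInf hne
  rintro r ⟨hr, f, hf, hpos, hle⟩
  obtain ⟨c, hc, h⟩ := H f hf
  have h1 := hpos c hc
  have h2 := hle c
  exact le_of_mul_le_mul_right (h.trans h2) h1

theorem pt_deriv_left (x y : ℝ) : HasDerivAt (fun t => pt t y) (pt 1 0) x := by
  have h1 : (fun t => pt t y) = fun t => pt 0 y + t • pt 1 0 := by
    funext t
    ext i
    fin_cases i <;> simp
  rw [h1]
  have h2 := ((hasDerivAt_id' x).smul_const (pt 1 0)).const_add (pt 0 y)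
  simpa using h2

theorem pt_deriv_right (x y : ℝ) : HasDerivAt (fun t => pt x t) (pt 0 1) y := by
  have h1 : (fun t => pt x t) = fun t => pt x 0 + t • pt 0 1 := by
    funext t
    ext i
    fin_cases i <;> simp
  rw [h1]
  have h2 := ((hasDerivAt_id' y).smul_const (pt 0 1)).const_add (pt x 0)
  simpa using h2

theorem rect_poincare {a b c d L : ℝ} (hab : a < b) (hcd : c < d) (h1 : b - a ≤ L)
    (h2 : d - c ≤ L) {u : E 2 → ℝ} (hu : ContDiff ℝ ∞ u) (h0 : ∫ x in rect a b c d, u x = 0) :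
    (Real.pi / L) ^ 2 * ∫ x in rect a b c d, u x ^ 2 ≤
      ∫ x in rect a b c d, ‖fderiv ℝ u x‖ ^ 2 := by
  have huc : Continuous u := hu.continuous
  have hdc : Continuous (fderiv ℝ u) := hu.continuous_fderiv (by simp)
  have hd : Differentiable ℝ u := hu.differentiable (by simp)
  rw [rect_int hab.le hcd.le huc] at h0
  rw [rect_int hab.le hcd.le (g := fun x => u x ^ 2) (by fun_prop),
    rect_int hab.le hcd.le (g := fun x => ‖fderiv ℝ u x‖ ^ 2) (by fun_prop)]
  simp only [norm_sq_dual]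
  apply poincare (g := fun x y => u (pt x y)) (gx := fun x y => fderiv ℝ u (pt x y) (pt 1 0))
    (gy := fun x y => fderiv ℝ u (pt x y) (pt 0 1)) hab hcd h1 h2
  · exact huc.comp continuous_pt
  · exact (hdc.comp continuous_pt).clm_apply continuous_const
  · exact (hdc.comp continuous_pt).clm_apply continuous_const
  · intro x y
    exact (hd (pt x y)).hasFDerivAt.comp_hasDerivAt x (pt_deriv_left x y)
  · intro x y
    exact (hd (pt x y)).hasFDerivAt.comp_hasDerivAt y (pt_deriv_right x y)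
  · exact h0

theorem intOn {Ω : Set (E 2)} (hΩ : Bornology.IsBounded Ω) {g : E 2 → ℝ} (hg : Continuous g) :
    IntegrableOn g Ω := by
  have h : IsCompact (closure Ω) := hΩ.isCompact_closure
  exact (hg.continuousOn.integrableOn_compact h).mono_set subset_closure

theorem rect_bdd (a b c d : ℝ) : Bornology.IsBounded (rect a b c d) := by
  rw [isBounded_iff_forall_norm_le]
  refine ⟨Real.sqrt ((|a| + |b|) ^ 2 + (|c| + |d|) ^ 2), fun x hx => ?_⟩
  rw [EuclideanSpace.norm_eq]
  apply Real.sqrt_le_sqrt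
  simp only [Fin.sum_univ_two, Real.norm_eq_abs]
  obtain ⟨h1, h2, h3, h4⟩ := hx
  have e1 : |x 0| ≤ |a| + |b| := by
    rw [abs_le]
    constructor
    · linarith [neg_abs_le a, abs_nonneg b]
    · linarith [le_abs_self b, abs_nonneg a]
  have e2 : |x 1| ≤ |c| + |d| := by
    rw [abs_le]
    constructor
    · linarith [neg_abs_le c, abs_nonneg d]
    · linarith [le_abs_self d, abs_nonneg c]
  exact add_le_add (pow_le_pow_left₀ (abs_nonneg _) e1 2) (pow_le_pow_left₀ (abs_nonneg _) e2 2)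

theorem rect_split {a m b c d : ℝ} (ham : a ≤ m) (hmb : m ≤ b) (hcd : c ≤ d) {g : E 2 → ℝ}
    (hg : Continuous g) : ∫ x in rect a b c d, g x =
      (∫ x in rect a m c d, g x) + ∫ x in rect m b c d, g x := by
  rw [rect_int (ham.trans hmb) hcd hg, rect_int ham hcd hg, rect_int hmb hcd hg]
  have hgc : Continuous (Function.uncurry fun y x => g (pt x y)) :=
    (hg.comp continuous_pt).comp continuous_swap
  rw [← intervalIntegral.integral_add
    ((intervalIntegral.continuous_parametric_intervalIntegral_of_continuous' hgc a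
      m).intervalIntegrable _ _)
    ((intervalIntegral.continuous_parametric_intervalIntegral_of_continuous' hgc m
      b).intervalIntegrable _ _)]
  apply intervalIntegral.integral_congr
  intro y _
  simp only
  have hy : Continuous fun x => g (pt x y) := hgc.comp (by fun_prop : Continuous fun x => (y, x))
  exact (intervalIntegral.integral_add_adjacent_intervals (hy.intervalIntegrable _ _)
    (hy.intervalIntegrable _ _)).symm

theorem sum_integral {j : ℕ} {Ω : Set (E 2)} (hΩ : Bornology.IsBounded Ω) {f : Fin j → E 2 → ℝ}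
    (hf : ∀ i, ContDiff ℝ ∞ (f i)) (c : Fin j → ℝ) :
    ∫ x in Ω, ∑ i, c i * f i x = ∑ i, c i * ∫ x in Ω, f i x := by
  rw [integral_finsetSum]
  · exact Finset.sum_congr rfl fun i _ => integral_const_mul _ _
  · intro i _
    exact (intOn hΩ (hf i).continuous).const_mul (c i)

/-- the rectangle of the counterexample -/
def R : Set (E 2) := rect (-10 / 3) (2 / 3) (-1) 1

theorem eig2_lower (hne : (eigSet 2 R).Nonempty) : (Real.pi / 4) ^ 2 ≤ neumannEig 2 R := by
  apply eig_lower hne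
  intro f hf
  obtain ⟨c, hc, h0⟩ := ker_exists (j := 2) (k := 1) (by norm_num)
    (fun _ i => ∫ x in R, f i x)
  refine ⟨c, hc, ?_⟩
  have hu : ContDiff ℝ ∞ fun x => ∑ i, c i * f i x :=
    ContDiff.sum fun i _ => contDiff_const.mul (hf i)
  apply rect_poincare (by norm_num) (by norm_num) (by norm_num) (by norm_num) hu
  exact (sum_integral (rect_bdd _ _ _ _) hf c).trans (h0 0)

theorem eig3_lower (hne : (eigSet 3 R).Nonempty) : (Real.pi / 2) ^ 2 ≤ neumannEig 3 R := by
  apply eig_lower hne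
  intro f hf
  obtain ⟨c, hc, h0⟩ := ker_exists (j := 3) (k := 2) (by norm_num)
    (fun l i => if l = 0 then ∫ x in rect (-10 / 3) (-4 / 3) (-1) 1, f i x else
      ∫ x in rect (-4 / 3) (2 / 3) (-1) 1, f i x)
  refine ⟨c, hc, ?_⟩
  have hu : ContDiff ℝ ∞ fun x => ∑ i, c i * f i x :=
    ContDiff.sum fun i _ => contDiff_const.mul (hf i)
  set u : E 2 → ℝ := fun x => ∑ i, c i * f i x with hudef
  have huc : Continuous u := hu.continuous
  have hdc : Continuous (fderiv ℝ u) := hu.continuous_fderiv (by simp)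
  have k1 : ∫ x in rect (-10 / 3) (-4 / 3) (-1) 1, u x = 0 :=
    (sum_integral (rect_bdd _ _ _ _) hf c).trans (by simpa using h0 0)
  have k2 : ∫ x in rect (-4 / 3) (2 / 3) (-1) 1, u x = 0 :=
    (sum_integral (rect_bdd _ _ _ _) hf c).trans (by simpa using h0 1)
  have p1 := rect_poincare (L := 2) (by norm_num) (by norm_num) (by norm_num) (by norm_num) hu k1
  have p2 := rect_poincare (L := 2) (by norm_num) (by norm_num) (by norm_num) (by norm_num) hu k2
  have s1 := rect_split (a := -10 / 3) (m := -4 / 3) (b := 2 / 3) (c := -1) (d := 1)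
    (by norm_num) (by norm_num) (by norm_num) (g := fun x => u x ^ 2) (by fun_prop)
  have s2 := rect_split (a := -10 / 3) (m := -4 / 3) (b := 2 / 3) (c := -1) (d := 1)
    (by norm_num) (by norm_num) (by norm_num) (g := fun x => ‖fderiv ℝ u x‖ ^ 2) (by fun_prop)
  change (Real.pi / 2) ^ 2 * ∫ x in rect (-10 / 3) (2 / 3) (-1) 1, u x ^ 2 ≤
    ∫ x in rect (-10 / 3) (2 / 3) (-1) 1, ‖fderiv ℝ u x‖ ^ 2
  rw [s1, s2, mul_add]
  exact add_le_add p1 p2

end Pool.Agent.Lib.MP_050cc1_an
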