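import Mathlib
import Pool.Agent.Lib.MP_050cc1_an.Defs
import Pool.Agent.Lib.MP_050cc1_an.Transfer
import Pool.Agent.Lib.MP_050cc1_an.Lower

set_option autoImplicit false

/-! Integrals over discs in polar coordinates. -/

namespace Pool.Agent.Lib.MP_050cc1_an

open MeasureTheory
open scoped InnerProductSpace ContDiff

theorem norm_pt_sq (a b : ℝ) : ‖pt a b‖ ^ 2 = a ^ 2 + b ^ 2 := by
  rw [EuclideanSpace.norm_sq_eq]
  simp [Fin.sum_univ_two]

theorem norm_sq_coord (x : E 2) : ‖x‖ ^ 2 = x 0 ^ 2 + x 1 ^ 2 := by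
  rw [EuclideanSpace.norm_sq_eq]
  simp [Fin.sum_univ_two]

theorem mem_ball_iff {a x : E 2} {r : ℝ} (hr : 0 ≤ r) :
    x ∈ Metric.ball a r ↔ (x 0 - a 0) ^ 2 + (x 1 - a 1) ^ 2 < r ^ 2 := by
  rw [mem_ball_iff_norm, ← sq_lt_sq₀ (norm_nonneg _) hr, norm_sq_coord]
  simp

theorem disc_int (a : E 2) {r : ℝ} (hr : 0 ≤ r) {g : E 2 → ℝ} (hg : Continuous g) :
    ∫ x in Metric.ball a r, g x = ∫ ρ in (0 : ℝ)..r, ∫ θ in -Real.pi..Real.pi,
      ρ * g (pt (a 0 + ρ * Real.cos θ) (a 1 + ρ * Real.sin θ)) := by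
  have hball : MeasurableSet (Metric.ball a r) := measurableSet_ball
  -- translation
  have h1 : ∫ x in Metric.ball a r, g x = ∫ x, (Metric.ball a r).indicator g (a + x) := by
    rw [← integral_indicator hball]
    exact (integral_add_left_eq_self _ a).symm
  rw [h1, integral_transfer, ← integral_comp_polarCoord_symm]
  set h : ℝ × ℝ → ℝ := fun q =>
    q.1 * g (pt (a 0 + q.1 * Real.cos q.2) (a 1 + q.1 * Real.sin q.2)) with hh
  have hhc : Continuous h := by
    have e1 : Continuous fun q : ℝ × ℝ =>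
        pt (a 0 + q.1 * Real.cos q.2) (a 1 + q.1 * Real.sin q.2) :=
      continuous_pt.comp (by fun_prop : Continuous fun q : ℝ × ℝ =>
        ((a 0 + q.1 * Real.cos q.2, a 1 + q.1 * Real.sin q.2) : ℝ × ℝ))
    exact continuous_fst.mul (hg.comp e1)
  have h2 : ∫ q in polarCoord.target, q.1 • (Metric.ball a r).indicator g
      (a + pt (polarCoord.symm q).1 (polarCoord.symm q).2) =
      ∫ q in polarCoord.target, (Set.Iio r ×ˢ Set.univ).indicator h q := by
    apply setIntegral_congr_fun polarCoord.open_target.measurableSet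
    intro q hq
    have hq0 : 0 < q.1 := hq.1
    have e1 : a + pt (polarCoord.symm q).1 (polarCoord.symm q).2 =
        pt (a 0 + q.1 * Real.cos q.2) (a 1 + q.1 * Real.sin q.2) := by
      ext i
      fin_cases i <;> simp [polarCoord_symm_apply]
    simp only [e1]
    by_cases hqr : q.1 < r
    · have m1 : pt (a 0 + q.1 * Real.cos q.2) (a 1 + q.1 * Real.sin q.2) ∈ Metric.ball a r := by
        rw [mem_ball_iff hr]
        simp only [pt_zero, pt_one]
        have := Real.sin_sq_add_cos_sq q.2
        have e2 : (a 0 + q.1 * Real.cos q.2 - a 0) ^ 2 + (a 1 + q.1 * Real.sin q.2 - a 1) ^ 2 =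
            q.1 ^ 2 * (Real.sin q.2 ^ 2 + Real.cos q.2 ^ 2) := by ring
        rw [e2, this, mul_one]
        exact pow_lt_pow_left₀ hqr hq0.le two_ne_zero
      have m2 : q ∈ Set.Iio r ×ˢ (Set.univ : Set ℝ) := ⟨hqr, Set.mem_univ _⟩
      rw [Set.indicator_of_mem m1, Set.indicator_of_mem m2, smul_eq_mul]
    · have m1 : pt (a 0 + q.1 * Real.cos q.2) (a 1 + q.1 * Real.sin q.2) ∉ Metric.ball a r := by
        rw [mem_ball_iff hr]
        simp only [pt_zero, pt_one]
        have := Real.sin_sq_add_cos_sq q.2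
        have e2 : (a 0 + q.1 * Real.cos q.2 - a 0) ^ 2 + (a 1 + q.1 * Real.sin q.2 - a 1) ^ 2 =
            q.1 ^ 2 * (Real.sin q.2 ^ 2 + Real.cos q.2 ^ 2) := by ring
        rw [e2, this, mul_one, not_lt]
        exact pow_le_pow_left₀ hr (not_lt.1 hqr) 2
      have m2 : q ∉ Set.Iio r ×ˢ (Set.univ : Set ℝ) := fun hm => hqr hm.1
      rw [Set.indicator_of_notMem m1, Set.indicator_of_notMem m2, smul_zero]
  rw [h2, setIntegral_indicator (measurableSet_Iio.prod MeasurableSet.univ)]
  have h3 : polarCoord.target ∩ Set.Iio r ×ˢ Set.univ =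
      Set.Ioo 0 r ×ˢ Set.Ioo (-Real.pi) Real.pi := by
    rw [polarCoord_target, Set.prod_inter_prod, Set.inter_univ, Set.Ioi_inter_Iio]
  have hint : IntegrableOn h (Set.Ioo 0 r ×ˢ Set.Ioo (-Real.pi) Real.pi) := by
    apply IntegrableOn.mono_set (t := Set.Icc 0 r ×ˢ Set.Icc (-Real.pi) Real.pi)
    · exact hhc.continuousOn.integrableOn_compact (isCompact_Icc.prod isCompact_Icc)
    · exact Set.prod_mono Set.Ioo_subset_Icc_self Set.Ioo_subset_Icc_self
  rw [h3, Measure.volume_eq_prod, setIntegral_prod _ (by rw [← Measure.volume_eq_prod]; exact hint),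
    intervalIntegral.integral_of_le hr, ← integral_Ioc_eq_integral_Ioo]
  congr 1
  funext ρ
  rw [intervalIntegral.integral_of_le (by linarith [Real.pi_pos]), ← integral_Ioc_eq_integral_Ioo]

/-- angular integral of a trigonometric polynomial of degree two -/
theorem ang (A B C D G H : ℝ) : ∫ θ in -Real.pi..Real.pi,
    (A + B * Real.cos θ + C * Real.sin θ + D * Real.cos θ ^ 2 + G * Real.sin θ ^ 2 +
      H * (Real.sin θ * Real.cos θ)) = 2 * Real.pi * A + Real.pi * D + Real.pi * G := by
  rw [intervalIntegral.integral_add (Continuous.intervalIntegrable (by fun_prop) _ _)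
      (Continuous.intervalIntegrable (by fun_prop) _ _),
    intervalIntegral.integral_add (Continuous.intervalIntegrable (by fun_prop) _ _)
      (Continuous.intervalIntegrable (by fun_prop) _ _),
    intervalIntegral.integral_add (Continuous.intervalIntegrable (by fun_prop) _ _)
      (Continuous.intervalIntegrable (by fun_prop) _ _),
    intervalIntegral.integral_add (Continuous.intervalIntegrable (by fun_prop) _ _)
      (Continuous.intervalIntegrable (by fun_prop) _ _),
    intervalIntegral.integral_add (Continuous.intervalIntegrable (by fun_prop) _ _)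
      (Continuous.intervalIntegrable (by fun_prop) _ _)]
  simp only [intervalIntegral.integral_const_mul, intervalIntegral.integral_const,
    integral_cos_sq, integral_sin_sq, integral_sin_mul_cos₁, integral_cos, integral_sin, smul_eq_mul]
  simp
  ring

/-- integral of a polynomial of degree seven -/
theorem rad (r A B C D : ℝ) : ∫ ρ in (0 : ℝ)..r, (A * ρ + B * ρ ^ 3 + C * ρ ^ 5 + D * ρ ^ 7) =
    A * r ^ 2 / 2 + B * r ^ 4 / 4 + C * r ^ 6 / 6 + D * r ^ 8 / 8 := by
  rw [intervalIntegral.integral_add (Continuous.intervalIntegrable (by fun_prop) _ _)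
      (Continuous.intervalIntegrable (by fun_prop) _ _),
    intervalIntegral.integral_add (Continuous.intervalIntegrable (by fun_prop) _ _)
      (Continuous.intervalIntegrable (by fun_prop) _ _),
    intervalIntegral.integral_add (Continuous.intervalIntegrable (by fun_prop) _ _)
      (Continuous.intervalIntegrable (by fun_prop) _ _)]
  have e1 : ∫ x in (0 : ℝ)..r, A * x = A * (r ^ 2 / 2) := by
    rw [intervalIntegral.integral_const_mul, integral_id]
    ring
  simp only [intervalIntegral.integral_const_mul, integral_pow] at e1 ⊢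
  rw [e1]
  norm_num
  ring

theorem norm_sq_fderiv {u : E 2 → ℝ} (hu : Differentiable ℝ u) {x y D1 D2 : ℝ}
    (h1 : HasDerivAt (fun t => u (pt t y)) D1 x) (h2 : HasDerivAt (fun t => u (pt x t)) D2 y) :
    ‖fderiv ℝ u (pt x y)‖ ^ 2 = D1 ^ 2 + D2 ^ 2 := by
  rw [norm_sq_dual]
  have e1 : HasDerivAt (fun t => u (pt t y)) (fderiv ℝ u (pt x y) (pt 1 0)) x :=
    (hu (pt x y)).hasFDerivAt.comp_hasDerivAt x (pt_deriv_left x y)
  have e2 : HasDerivAt (fun t => u (pt x t)) (fderiv ℝ u (pt x y) (pt 0 1)) y :=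
    (hu (pt x y)).hasFDerivAt.comp_hasDerivAt y (pt_deriv_right x y)
  rw [e1.unique h1, e2.unique h2]

end Pool.Agent.Lib.MP_050cc1_an
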