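import Mathlib
import Pool.Agent.Lib.MP_050cc1_an.Defs
import Pool.Agent.Lib.MP_050cc1_an.Transfer
import Pool.Agent.Lib.MP_050cc1_an.Lower
import Pool.Agent.Lib.MP_050cc1_an.Disc

set_option autoImplicit false

/-! Upper bounds for the Neumann eigenvalues of a disc. -/

namespace Pool.Agent.Lib.MP_050cc1_an

open MeasureTheory
open scoped InnerProductSpace ContDiff

/-- the trial functions on the disc -/
noncomputable def trial (a : E 2) (r : ℝ) : Fin 3 → E 2 → ℝ :=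
  ![fun _ => 1,
    fun x => (x 0 - a 0) * (1 - ((x 0 - a 0) ^ 2 + (x 1 - a 1) ^ 2) / (3 * r ^ 2)),
    fun x => (x 1 - a 1) * (1 - ((x 0 - a 0) ^ 2 + (x 1 - a 1) ^ 2) / (3 * r ^ 2))]

theorem trial_smooth (a : E 2) (r : ℝ) (i : Fin 3) : ContDiff ℝ ∞ (trial a r i) := by
  have h0 : ContDiff ℝ ∞ fun x : E 2 => x 0 := by fun_prop
  have h1 : ContDiff ℝ ∞ fun x : E 2 => x 1 := by fun_prop
  have hq : ContDiff ℝ ∞ fun x : E 2 =>
      (1 - ((x 0 - a 0) ^ 2 + (x 1 - a 1) ^ 2) / (3 * r ^ 2)) :=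
    contDiff_const.sub ((((h0.sub contDiff_const).pow 2).add
      ((h1.sub contDiff_const).pow 2)).div_const _)
  fin_cases i
  · exact contDiff_const
  · exact (h0.sub contDiff_const).mul hq
  · exact (h1.sub contDiff_const).mul hq

theorem trial_sum (a : E 2) (r : ℝ) (c : Fin 3 → ℝ) (x : E 2) : ∑ i, c i * trial a r i x =
    c 0 + (c 1 * (x 0 - a 0) + c 2 * (x 1 - a 1)) *
      (1 - ((x 0 - a 0) ^ 2 + (x 1 - a 1) ^ 2) / (3 * r ^ 2)) := by
  simp only [Fin.sum_univ_three, trial, Matrix.cons_val_zero, Matrix.cons_val_one,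
    Matrix.cons_val_two, Matrix.head_cons, Matrix.tail_cons]
  ring

theorem trial_sq (a : E 2) {r : ℝ} (hr : 0 < r) (c : Fin 3 → ℝ) :
    ∫ x in Metric.ball a r, (∑ i, c i * trial a r i x) ^ 2 =
      Real.pi * (c 0 ^ 2 * r ^ 2 + 11 / 72 * (c 1 ^ 2 + c 2 ^ 2) * r ^ 4) := by
  have hc : Continuous fun x : E 2 => (∑ i, c i * trial a r i x) ^ 2 :=
    (continuous_finsetSum _ fun i _ => continuous_const.mul (trial_smooth a r i).continuous).pow 2
  rw [disc_int a hr.le hc]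
  have h1 : ∀ ρ : ℝ, ∫ θ in -Real.pi..Real.pi, ρ * (∑ i, c i * trial a r i
      (pt (a 0 + ρ * Real.cos θ) (a 1 + ρ * Real.sin θ))) ^ 2 =
      (2 * Real.pi * c 0 ^ 2) * ρ + (Real.pi * (c 1 ^ 2 + c 2 ^ 2)) * ρ ^ 3 +
      (-2 / (3 * r ^ 2) * Real.pi * (c 1 ^ 2 + c 2 ^ 2)) * ρ ^ 5 +
      (1 / (9 * r ^ 4) * Real.pi * (c 1 ^ 2 + c 2 ^ 2)) * ρ ^ 7 := by
    intro ρ
    set q := 1 - ρ ^ 2 / (3 * r ^ 2) with hq
    have h2 : ∀ θ : ℝ, ρ * (∑ i, c i * trial a r i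
        (pt (a 0 + ρ * Real.cos θ) (a 1 + ρ * Real.sin θ))) ^ 2 =
        ρ * c 0 ^ 2 + (2 * ρ ^ 2 * c 0 * c 1 * q) * Real.cos θ +
        (2 * ρ ^ 2 * c 0 * c 2 * q) * Real.sin θ + (ρ ^ 3 * c 1 ^ 2 * q ^ 2) * Real.cos θ ^ 2 +
        (ρ ^ 3 * c 2 ^ 2 * q ^ 2) * Real.sin θ ^ 2 +
        (2 * ρ ^ 3 * c 1 * c 2 * q ^ 2) * (Real.sin θ * Real.cos θ) := by
      intro θ
      rw [trial_sum]
      simp only [pt_zero, pt_one, add_sub_cancel_left]
      have e1 : (ρ * Real.cos θ) ^ 2 + (ρ * Real.sin θ) ^ 2 = ρ ^ 2 := by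
        have := Real.sin_sq_add_cos_sq θ
        linear_combination ρ ^ 2 * this
      rw [e1, ← hq]
      ring
    simp only [h2]
    rw [ang, hq]
    field_simp
    ring
  simp only [h1]
  rw [rad]
  field_simp
  ring

theorem trial_grad (a : E 2) {r : ℝ} (hr : 0 < r) (c : Fin 3 → ℝ) :
    ∫ x in Metric.ball a r, ‖fderiv ℝ (fun y => ∑ i, c i * trial a r i y) x‖ ^ 2 =
      Real.pi * (14 / 27 * (c 1 ^ 2 + c 2 ^ 2) * r ^ 2) := by
  have hsm : ContDiff ℝ ∞ fun y : E 2 => ∑ i, c i * trial a r i y :=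
    ContDiff.sum fun i _ => contDiff_const.mul (trial_smooth a r i)
  set u : E 2 → ℝ := fun y => ∑ i, c i * trial a r i y with hu
  have hd : Differentiable ℝ u := hsm.differentiable (by simp)
  have hdc : Continuous (fderiv ℝ u) := hsm.continuous_fderiv (by simp)
  rw [disc_int a hr.le (g := fun x => ‖fderiv ℝ u x‖ ^ 2) (by fun_prop)]
  have key : ∀ x y : ℝ, ‖fderiv ℝ u (pt x y)‖ ^ 2 =
      (c 1 * (1 - (3 * (x - a 0) ^ 2 + (y - a 1) ^ 2) / (3 * r ^ 2)) -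
        c 2 * (2 * (x - a 0) * (y - a 1)) / (3 * r ^ 2)) ^ 2 +
      (c 2 * (1 - ((x - a 0) ^ 2 + 3 * (y - a 1) ^ 2) / (3 * r ^ 2)) -
        c 1 * (2 * (x - a 0) * (y - a 1)) / (3 * r ^ 2)) ^ 2 := by
    intro x y
    apply norm_sq_fderiv hd
    · have e1 : (fun t => u (pt t y)) = fun t => c 0 + (c 1 * (t - a 0) + c 2 * (y - a 1)) *
          (1 - ((t - a 0) ^ 2 + (y - a 1) ^ 2) / (3 * r ^ 2)) := by
        funext t
        simp only [hu, trial_sum, pt_zero, pt_one]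
      rw [e1]
      have d0 : HasDerivAt (fun t : ℝ => t - a 0) 1 x := (hasDerivAt_id' x).sub_const _
      have d1 : HasDerivAt (fun t : ℝ => c 1 * (t - a 0) + c 2 * (y - a 1)) (c 1 * 1) x :=
        (d0.const_mul (c 1)).add_const _
      have d2 : HasDerivAt (fun t : ℝ => 1 - ((t - a 0) ^ 2 + (y - a 1) ^ 2) / (3 * r ^ 2))
          (-(((2 : ℕ) * (x - a 0) ^ (2 - 1) * 1) / (3 * r ^ 2))) x :=
        (((d0.pow 2).add_const _).div_const _).const_sub 1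
      refine ((d1.mul d2).const_add (c 0)).congr_deriv ?_
      field_simp
      ring
    · have e1 : (fun t => u (pt x t)) = fun t => c 0 + (c 1 * (x - a 0) + c 2 * (t - a 1)) *
          (1 - ((x - a 0) ^ 2 + (t - a 1) ^ 2) / (3 * r ^ 2)) := by
        funext t
        simp only [hu, trial_sum, pt_zero, pt_one]
      rw [e1]
      have d0 : HasDerivAt (fun t : ℝ => t - a 1) 1 y := (hasDerivAt_id' y).sub_const _
      have d1 : HasDerivAt (fun t : ℝ => c 1 * (x - a 0) + c 2 * (t - a 1)) (c 2 * 1) y :=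
        (d0.const_mul (c 2)).const_add _
      have d2 : HasDerivAt (fun t : ℝ => 1 - ((x - a 0) ^ 2 + (t - a 1) ^ 2) / (3 * r ^ 2))
          (-(((2 : ℕ) * (y - a 1) ^ (2 - 1) * 1) / (3 * r ^ 2))) y :=
        (((d0.pow 2).const_add _).div_const _).const_sub 1
      refine ((d1.mul d2).const_add (c 0)).congr_deriv ?_
      field_simp
      ring
  simp only [key, add_sub_cancel_left]
  have h1 : ∀ ρ : ℝ, ∫ θ in -Real.pi..Real.pi, ρ *
      ((c 1 * (1 - (3 * (ρ * Real.cos θ) ^ 2 + (ρ * Real.sin θ) ^ 2) / (3 * r ^ 2)) -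
        c 2 * (2 * (ρ * Real.cos θ) * (ρ * Real.sin θ)) / (3 * r ^ 2)) ^ 2 +
      (c 2 * (1 - ((ρ * Real.cos θ) ^ 2 + 3 * (ρ * Real.sin θ) ^ 2) / (3 * r ^ 2)) -
        c 1 * (2 * (ρ * Real.cos θ) * (ρ * Real.sin θ)) / (3 * r ^ 2)) ^ 2) =
      (2 * Real.pi * (c 1 ^ 2 + c 2 ^ 2)) * ρ +
      (-8 / (3 * r ^ 2) * Real.pi * (c 1 ^ 2 + c 2 ^ 2)) * ρ ^ 3 +
      (10 / (9 * r ^ 4) * Real.pi * (c 1 ^ 2 + c 2 ^ 2)) * ρ ^ 5 + 0 * ρ ^ 7 := by
    intro ρ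
    set τ := ρ ^ 2 / (3 * r ^ 2) with hτ
    have h2 : ∀ θ : ℝ, ρ *
        ((c 1 * (1 - (3 * (ρ * Real.cos θ) ^ 2 + (ρ * Real.sin θ) ^ 2) / (3 * r ^ 2)) -
          c 2 * (2 * (ρ * Real.cos θ) * (ρ * Real.sin θ)) / (3 * r ^ 2)) ^ 2 +
        (c 2 * (1 - ((ρ * Real.cos θ) ^ 2 + 3 * (ρ * Real.sin θ) ^ 2) / (3 * r ^ 2)) -
          c 1 * (2 * (ρ * Real.cos θ) * (ρ * Real.sin θ)) / (3 * r ^ 2)) ^ 2) =
        ρ * (c 1 ^ 2 + c 2 ^ 2) * (1 - τ) ^ 2 + 0 * Real.cos θ + 0 * Real.sin θ +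
        (-(4 * ρ * τ * (1 - 2 * τ) * c 1 ^ 2)) * Real.cos θ ^ 2 +
        (-(4 * ρ * τ * (1 - 2 * τ) * c 2 ^ 2)) * Real.sin θ ^ 2 +
        (-(8 * ρ * τ * (1 - 2 * τ) * c 1 * c 2)) * (Real.sin θ * Real.cos θ) := by
      intro θ
      set C := Real.cos θ
      set S := Real.sin θ
      have hSC : S ^ 2 = 1 - C ^ 2 := by
        have := Real.sin_sq_add_cos_sq θ
        linear_combination this
      have e1 : (3 * (ρ * C) ^ 2 + (ρ * S) ^ 2) / (3 * r ^ 2) = τ * (1 + 2 * C ^ 2) := by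
        rw [hτ, mul_pow ρ S 2, hSC]
        field_simp
        ring
      have e2 : ((ρ * C) ^ 2 + 3 * (ρ * S) ^ 2) / (3 * r ^ 2) = τ * (1 + 2 * S ^ 2) := by
        have hCS : C ^ 2 = 1 - S ^ 2 := by linear_combination hSC
        rw [hτ, mul_pow ρ C 2, hCS]
        field_simp
        ring
      have e3 : c 2 * (2 * (ρ * C) * (ρ * S)) / (3 * r ^ 2) = 2 * c 2 * τ * C * S := by
        rw [hτ]
        field_simp
      have e4 : c 1 * (2 * (ρ * C) * (ρ * S)) / (3 * r ^ 2) = 2 * c 1 * τ * C * S := by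
        rw [hτ]
        field_simp
      rw [e1, e2, e3, e4]
      have e5 : c 1 * (1 - τ * (1 + 2 * C ^ 2)) - 2 * c 2 * τ * C * S =
          c 1 * (1 - τ) - 2 * τ * C * (c 1 * C + c 2 * S) := by ring
      have e6 : c 2 * (1 - τ * (1 + 2 * S ^ 2)) - 2 * c 1 * τ * C * S =
          c 2 * (1 - τ) - 2 * τ * S * (c 1 * C + c 2 * S) := by ring
      rw [e5, e6]
      have e7 : (c 1 * (1 - τ) - 2 * τ * C * (c 1 * C + c 2 * S)) ^ 2 +
          (c 2 * (1 - τ) - 2 * τ * S * (c 1 * C + c 2 * S)) ^ 2 =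
          (c 1 ^ 2 + c 2 ^ 2) * (1 - τ) ^ 2 - 4 * τ * (1 - 2 * τ) * (c 1 * C + c 2 * S) ^ 2 := by
        linear_combination 4 * τ ^ 2 * (c 1 * C + c 2 * S) ^ 2 * hSC
      rw [e7]
      ring
    simp only [h2]
    rw [ang, hτ]
    field_simp
    ring
  simp only [h1]
  rw [rad]
  field_simp
  ring

theorem ball_mem (a : E 2) {r : ℝ} (hr : 0 < r) :
    112 / 33 / r ^ 2 ∈ eigSet 3 (Metric.ball a r) := by
  refine ⟨by positivity, trial a r, trial_smooth a r, ?_, ?_⟩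
  · intro c hc
    rw [trial_sq a hr]
    apply mul_pos Real.pi_pos
    have hr2 : 0 < r ^ 2 := by positivity
    have hr4 : 0 < r ^ 4 := by positivity
    by_cases h0 : c 0 = 0
    · by_cases h1 : c 1 = 0
      · have h2 : c 2 ≠ 0 := by
          intro h2
          apply hc
          funext i
          fin_cases i <;> simp [h0, h1, h2]
        positivity
      · positivity
    · positivity
  · intro c
    rw [trial_sq a hr, trial_grad a hr]
    have e : 112 / 33 / r ^ 2 * (Real.pi * (c 0 ^ 2 * r ^ 2 +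
        11 / 72 * (c 1 ^ 2 + c 2 ^ 2) * r ^ 4)) = Real.pi * (112 / 33 * c 0 ^ 2) +
        Real.pi * (14 / 27 * (c 1 ^ 2 + c 2 ^ 2) * r ^ 2) := by
      field_simp
      ring
    rw [e]
    have : 0 ≤ Real.pi * (112 / 33 * c 0 ^ 2) := by positivity
    linarith

theorem eig3_ball (a : E 2) {r : ℝ} (hr : 0 < r) :
    neumannEig 3 (Metric.ball a r) ≤ 112 / 33 / r ^ 2 :=
  csInf_le (eigSet_bdd _ _) (ball_mem a hr)

theorem eig2_ball (a : E 2) {r : ℝ} (hr : 0 < r) :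
    neumannEig 2 (Metric.ball a r) ≤ 112 / 33 / r ^ 2 :=
  (eig_mono 2 _ ⟨_, ball_mem a hr⟩).trans (eig3_ball a hr)

end Pool.Agent.Lib.MP_050cc1_an
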