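import Mathlib
import Pool.Agent.Lib.MP_050cc1_an.Defs
import Pool.Agent.Lib.MP_050cc1_an.Transfer
import Pool.Agent.Lib.MP_050cc1_an.Lower
import Pool.Agent.Lib.MP_050cc1_an.Disc

set_option autoImplicit false

/-! Polar duals and second moments. -/

namespace Pool.Agent.Lib.MP_050cc1_an

open MeasureTheory
open scoped InnerProductSpace ContDiff Topology

theorem polarDual_isOpen {Ω : Set (E 2)} (hΩ : Bornology.IsBounded Ω) : IsOpen (polarDual Ω) := by
  have hK : IsCompact (closure Ω) := hΩ.isCompact_closure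
  rw [isOpen_iff_eventually]
  intro x hx
  apply hK.eventually_forall_of_forall_eventually
  intro y hy
  have hc : Continuous fun z : E 2 × E 2 => ⟪z.1, z.2⟫_ℝ := by fun_prop
  exact (hc.tendsto (x, y)).eventually (gt_mem_nhds (hx y hy))

theorem polarDual_bdd {Ω : Set (E 2)} (hΩ : InK Ω) : Bornology.IsBounded (polarDual Ω) := by
  obtain ⟨ho, -, -, h0⟩ := hΩ
  obtain ⟨δ, hδ, hball⟩ := Metric.isOpen_iff.1 ho 0 h0
  rw [isBounded_iff_forall_norm_le]
  refine ⟨2 / δ, fun x hx => ?_⟩
  by_cases hx0 : x = 0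
  · rw [hx0, norm_zero]
    positivity
  have hn : 0 < ‖x‖ := norm_pos_iff.2 hx0
  have h1 : (δ / 2 / ‖x‖) • x ∈ closure Ω := by
    apply subset_closure
    apply hball
    rw [mem_ball_zero_iff, norm_smul, Real.norm_eq_abs, abs_of_pos (by positivity),
      div_mul_cancel₀ _ hn.ne']
    linarith
  have h2 := hx _ h1
  rw [inner_smul_right, real_inner_self_eq_norm_sq] at h2
  have h3 : δ / 2 / ‖x‖ * ‖x‖ ^ 2 = δ / 2 * ‖x‖ := by
    field_simp
  rw [h3] at h2
  rw [le_div_iff₀ hδ]
  linarith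

theorem vol_nonneg {D : Set (E 2)} : 0 ≤ vol D := ENNReal.toReal_nonneg

theorem vol_ball (a : E 2) {r : ℝ} (hr : 0 ≤ r) : vol (Metric.ball a r) = Real.pi * r ^ 2 := by
  rw [vol, EuclideanSpace.volume_ball_fin_two, ENNReal.toReal_mul, ENNReal.toReal_pow,
    ENNReal.toReal_ofReal hr, mul_comm, ENNReal.toReal_ofReal Real.pi_pos.le]

theorem int_ball_sq (a : E 2) {r : ℝ} (hr : 0 ≤ r) :
    ∫ x in Metric.ball a r, ‖x - a‖ ^ 2 = Real.pi * r ^ 4 / 2 := by
  rw [disc_int a hr (g := fun x => ‖x - a‖ ^ 2) (by fun_prop)]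
  have h1 : ∀ ρ : ℝ, ∫ θ in -Real.pi..Real.pi,
      ρ * ‖pt (a 0 + ρ * Real.cos θ) (a 1 + ρ * Real.sin θ) - a‖ ^ 2 =
      0 * ρ + (2 * Real.pi) * ρ ^ 3 + 0 * ρ ^ 5 + 0 * ρ ^ 7 := by
    intro ρ
    have h2 : ∀ θ : ℝ, ρ * ‖pt (a 0 + ρ * Real.cos θ) (a 1 + ρ * Real.sin θ) - a‖ ^ 2 = ρ ^ 3 := by
      intro θ
      rw [norm_sq_coord]
      simp only [PiLp.sub_apply, pt_zero, pt_one, add_sub_cancel_left]
      have := Real.sin_sq_add_cos_sq θ
      linear_combination ρ ^ 3 * this
    simp only [h2, intervalIntegral.integral_const, smul_eq_mul]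
    ring
  simp only [h1]
  rw [rad]
  ring

theorem setIntegral_one {D : Set (E 2)} (c : ℝ) : ∫ _ in D, c = vol D * c := by
  rw [setIntegral_const, smul_eq_mul]
  rfl

/-- Among planar sets of given area the disc has the least second moment. -/
theorem bathtub {D : Set (E 2)} (hD : MeasurableSet D) (hb : Bornology.IsBounded D) :
    vol D ^ 2 ≤ 2 * Real.pi * moment D := by
  set V := vol D with hV
  have hV0 : 0 ≤ V := vol_nonneg
  set m := centroid D with hm
  set ρ := Real.sqrt (V / Real.pi) with hρ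
  have hρ0 : 0 ≤ ρ := Real.sqrt_nonneg _
  have hρ2 : ρ ^ 2 = V / Real.pi := Real.sq_sqrt (by positivity)
  have hφ : Continuous fun x : E 2 => ‖x - m‖ ^ 2 - ρ ^ 2 := by fun_prop
  have h1 : ∫ x in Metric.ball m ρ, (‖x - m‖ ^ 2 - ρ ^ 2) ≤ ∫ x in D, (‖x - m‖ ^ 2 - ρ ^ 2) := by
    rw [← integral_indicator measurableSet_ball, ← integral_indicator hD]
    apply integral_mono
    · exact (intOn Metric.isBounded_ball hφ).integrable_indicator measurableSet_ball
    · exact (intOn hb hφ).integrable_indicator hD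
    · intro x
      by_cases hx : x ∈ Metric.ball m ρ
      · rw [Set.indicator_of_mem hx]
        by_cases hxD : x ∈ D
        · rw [Set.indicator_of_mem hxD]
        · rw [Set.indicator_of_notMem hxD]
          rw [mem_ball_iff_norm] at hx
          have := pow_le_pow_left₀ (norm_nonneg _) hx.le 2
          linarith
      · rw [Set.indicator_of_notMem hx]
        by_cases hxD : x ∈ D
        · rw [Set.indicator_of_mem hxD]
          rw [mem_ball_iff_norm, not_lt] at hx
          have := pow_le_pow_left₀ hρ0 hx 2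
          linarith
        · rw [Set.indicator_of_notMem hxD]
  have hn : Continuous fun x : E 2 => ‖x - m‖ ^ 2 := by fun_prop
  rw [integral_sub (intOn Metric.isBounded_ball hn) (intOn Metric.isBounded_ball continuous_const),
    integral_sub (intOn hb hn) (intOn hb continuous_const), setIntegral_one, setIntegral_one,
    int_ball_sq m hρ0, vol_ball m hρ0] at h1
  have h2 : ∫ x in D, ‖x - m‖ ^ 2 = moment D := rfl
  rw [h2, ← hV] at h1
  have h4 : ρ ^ 4 = (V / Real.pi) ^ 2 := by
    rw [← hρ2]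
    ring
  rw [h4, hρ2] at h1
  have hpi := Real.pi_pos
  have h5 : Real.pi * (V / Real.pi) ^ 2 / 2 - Real.pi * (V / Real.pi) * (V / Real.pi) =
      -(V ^ 2 / (2 * Real.pi)) := by
    field_simp
    ring
  have h6 : V * (V / Real.pi) = 2 * (V ^ 2 / (2 * Real.pi)) := by
    field_simp
  rw [h5, h6] at h1
  have h7 : V ^ 2 / (2 * Real.pi) ≤ moment D := by linarith
  rw [div_le_iff₀ (by positivity)] at h7
  linarith

theorem moment_le {D : Set (E 2)} (hb : Bornology.IsBounded D) (hV : 0 < vol D) (a : E 2) :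
    moment D ≤ ∫ x in D, ‖x - a‖ ^ 2 := by
  set m := centroid D with hm
  have hfin : IsFiniteMeasure (volume.restrict D) := ⟨by
    rw [Measure.restrict_apply_univ]
    exact hb.measure_lt_top⟩
  have hid : IntegrableOn (fun x : E 2 => x) D := by
    have h : IsCompact (closure D) := hb.isCompact_closure
    exact (continuous_id.continuousOn.integrableOn_compact h).mono_set subset_closure
  have h0 : ∫ x in D, x = vol D • m := by
    rw [hm, centroid, smul_smul, mul_inv_cancel₀ hV.ne', one_smul]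
  have h1 : ∀ x : E 2, ‖x - a‖ ^ 2 = ‖x - m‖ ^ 2 + (2 * ⟪m - a, x⟫_ℝ + (‖m - a‖ ^ 2 -
      2 * ⟪m - a, m⟫_ℝ)) := by
    intro x
    have e1 : x - a = (x - m) + (m - a) := by abel
    rw [e1, norm_add_sq_real, real_inner_comm, inner_sub_right]
    ring
  rw [integral_congr_ae (Filter.Eventually.of_forall h1)]
  have hi : IntegrableOn (fun x : E 2 => ⟪m - a, x⟫_ℝ) D := intOn hb (by fun_prop)
  rw [integral_add (intOn hb (by fun_prop)) (intOn hb (by fun_prop)),
    integral_add (intOn hb (by fun_prop)) (intOn hb (by fun_prop)), integral_const_mul,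
    integral_inner hid, h0, setIntegral_one, inner_smul_right]
  have h2 : ∫ x in D, ‖x - m‖ ^ 2 = moment D := rfl
  rw [h2]
  have h3 : 0 ≤ vol D * ‖m - a‖ ^ 2 := by positivity
  have h4 : 2 * (vol D * ⟪m - a, m⟫_ℝ) + vol D * (‖m - a‖ ^ 2 - 2 * ⟪m - a, m⟫_ℝ) =
      vol D * ‖m - a‖ ^ 2 := by ring
  rw [h4]
  linarith

end Pool.Agent.Lib.MP_050cc1_an
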