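import Mathlib
import Pool.Agent.Lib.MP_050cc1_an.Defs
import Pool.Agent.Lib.MP_050cc1_an.Transfer
import Pool.Agent.Lib.MP_050cc1_an.Lower
import Pool.Agent.Lib.MP_050cc1_an.Disc
import Pool.Agent.Lib.MP_050cc1_an.Polar

set_option autoImplicit false

/-! The rectangle of the counterexample and its polar dual, a kite. -/

namespace Pool.Agent.Lib.MP_050cc1_an

open MeasureTheory
open scoped InnerProductSpace ContDiff Topology

theorem poly3 (a b A B C D : ℝ) : ∫ t in a..b, (A + B * t + C * t ^ 2 + D * t ^ 3) =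
    A * (b - a) + B * (b ^ 2 - a ^ 2) / 2 + C * (b ^ 3 - a ^ 3) / 3 + D * (b ^ 4 - a ^ 4) / 4 := by
  rw [intervalIntegral.integral_add (Continuous.intervalIntegrable (by fun_prop) _ _)
      (Continuous.intervalIntegrable (by fun_prop) _ _),
    intervalIntegral.integral_add (Continuous.intervalIntegrable (by fun_prop) _ _)
      (Continuous.intervalIntegrable (by fun_prop) _ _),
    intervalIntegral.integral_add (Continuous.intervalIntegrable (by fun_prop) _ _)
      (Continuous.intervalIntegrable (by fun_prop) _ _)]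
  have e1 : ∫ x in a..b, B * x = B * ((b ^ 2 - a ^ 2) / 2) := by
    rw [intervalIntegral.integral_const_mul, integral_id]
  have e2 : ∫ _ in a..b, A = A * (b - a) := by
    rw [intervalIntegral.integral_const, smul_eq_mul]
    ring
  simp only [intervalIntegral.integral_const_mul, integral_pow] at e1 ⊢
  rw [e1, e2]
  norm_num
  ring

/-! ### the rectangle -/

theorem R_int_sq (c0 c1 c2 : ℝ) : ∫ x in R, (c0 + c1 * (x 0 + 4 / 3) + c2 * x 1) ^ 2 =
    8 * c0 ^ 2 + 32 / 3 * c1 ^ 2 + 8 / 3 * c2 ^ 2 := by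
  unfold R
  rw [rect_int (by norm_num) (by norm_num)
    (g := fun x : E 2 => (c0 + c1 * (x 0 + 4 / 3) + c2 * x 1) ^ 2) (by fun_prop)]
  have h1 : ∀ y : ℝ, ∫ x in (-10 / 3 : ℝ)..(2 / 3), (c0 + c1 * (pt x y 0 + 4 / 3) +
      c2 * pt x y 1) ^ 2 = (4 * c0 ^ 2 + 16 / 3 * c1 ^ 2) + (8 * c0 * c2) * y +
      (4 * c2 ^ 2) * y ^ 2 + 0 * y ^ 3 := by
    intro y
    have h2 : ∀ x : ℝ, (c0 + c1 * (pt x y 0 + 4 / 3) + c2 * pt x y 1) ^ 2 =
        (c0 + 4 / 3 * c1 + c2 * y) ^ 2 + (2 * c1 * (c0 + 4 / 3 * c1 + c2 * y)) * x +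
        c1 ^ 2 * x ^ 2 + 0 * x ^ 3 := by
      intro x
      simp only [pt_zero, pt_one]
      ring
    simp only [h2]
    rw [poly3]
    ring
  simp only [h1]
  rw [poly3]
  ring

theorem rect_mem : 3 ∈ eigSet 3 R := by
  refine ⟨by norm_num, ![fun _ => 1, fun x => x 0 + 4 / 3, fun x => x 1], ?_, ?_, ?_⟩
  · intro i
    fin_cases i
    · exact contDiff_const
    · change ContDiff ℝ ∞ fun x : E 2 => x 0 + 4 / 3
      fun_prop
    · change ContDiff ℝ ∞ fun x : E 2 => x 1
      fun_prop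
  · intro c hc
    have h1 : ∀ x : E 2, ∑ i, c i * (![fun _ => 1, fun x => x 0 + 4 / 3, fun x => x 1] :
        Fin 3 → E 2 → ℝ) i x = c 0 + c 1 * (x 0 + 4 / 3) + c 2 * x 1 := by
      intro x
      simp only [Fin.sum_univ_three, Matrix.cons_val_zero, Matrix.cons_val_one,
        Matrix.cons_val_two, Matrix.head_cons, Matrix.tail_cons]
      ring
    simp only [h1]
    rw [R_int_sq]
    by_cases h0 : c 0 = 0
    · by_cases h1 : c 1 = 0
      · have h2 : c 2 ≠ 0 := by
          intro h2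
          apply hc
          funext i
          fin_cases i <;> simp [h0, h1, h2]
        positivity
      · positivity
    · positivity
  · intro c
    have h1 : ∀ x : E 2, ∑ i, c i * (![fun _ => 1, fun x => x 0 + 4 / 3, fun x => x 1] :
        Fin 3 → E 2 → ℝ) i x = c 0 + c 1 * (x 0 + 4 / 3) + c 2 * x 1 := by
      intro x
      simp only [Fin.sum_univ_three, Matrix.cons_val_zero, Matrix.cons_val_one,
        Matrix.cons_val_two, Matrix.head_cons, Matrix.tail_cons]
      ring
    simp only [h1]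
    rw [R_int_sq]
    have hd : Differentiable ℝ fun x : E 2 => c 0 + c 1 * (x 0 + 4 / 3) + c 2 * x 1 := by
      fun_prop
    have h2 : ∀ x : E 2, ‖fderiv ℝ (fun x : E 2 => c 0 + c 1 * (x 0 + 4 / 3) + c 2 * x 1) x‖ ^ 2 =
        c 1 ^ 2 + c 2 ^ 2 := by
      intro x
      rw [← pt_eta x]
      apply norm_sq_fderiv hd
      · simp only [pt_zero, pt_one]
        have d0 : HasDerivAt (fun t : ℝ => t + 4 / 3) 1 (x 0) := (hasDerivAt_id' _).add_const _
        have d1 := ((d0.const_mul (c 1)).const_add (c 0)).add_const (c 2 * x 1)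
        rw [mul_one] at d1
        exact d1
      · simp only [pt_zero, pt_one]
        have d1 := ((hasDerivAt_id' (x 1)).const_mul (c 2)).const_add
          (c 0 + c 1 * (x 0 + 4 / 3))
        rw [mul_one] at d1
        exact d1
    simp only [h2]
    have h3 := R_int_sq 1 0 0
    have h4 : ∫ x in R, (c 1 ^ 2 + c 2 ^ 2) = 8 * (c 1 ^ 2 + c 2 ^ 2) := by
      rw [setIntegral_one]
      have h5 : vol R = 8 := by
        have h6 : ∫ x in R, ((1 : ℝ) + 0 * (x 0 + 4 / 3) + 0 * x 1) ^ 2 = ∫ _ in R, (1 : ℝ) := by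
          simp
        rw [h6, setIntegral_one] at h3
        linarith
      rw [h5]
    rw [h4]
    nlinarith [sq_nonneg (c 0), sq_nonneg (c 1), sq_nonneg (c 2)]

theorem vol_R : vol R = 8 := by
  have h3 := R_int_sq 1 0 0
  have h6 : ∫ x in R, ((1 : ℝ) + 0 * (x 0 + 4 / 3) + 0 * x 1) ^ 2 = ∫ _ in R, (1 : ℝ) := by
    simp
  rw [h6, setIntegral_one] at h3
  linarith

theorem R_InK : InK R := by
  refine ⟨isOpen_rect _ _ _ _, ?_, rect_bdd _ _ _ _, ?_⟩
  · intro x hx y hy α β hα hβ hαβ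
    obtain ⟨x1, x2, x3, x4⟩ := hx
    obtain ⟨y1, y2, y3, y4⟩ := hy
    simp only [R, rect, Set.mem_ofPred_eq, PiLp.add_apply, PiLp.smul_apply, smul_eq_mul]
    have hβ' : β = 1 - α := by linarith
    subst hβ'
    rcases hα.eq_or_lt with h | h
    · subst h
      simp only [zero_mul, zero_add, sub_zero, one_mul]
      exact ⟨y1, y2, y3, y4⟩
    · refine ⟨?_, ?_, ?_, ?_⟩ <;> nlinarith
  · simp only [R, rect, Set.mem_ofPred_eq]
    norm_num

/-! ### the kite -/

/-- half the height of the kite at abscissa `t` -/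
noncomputable def hk (t : ℝ) : ℝ := min (1 - 2 / 3 * t) (1 + 10 / 3 * t)

theorem corner_mem {a b : ℝ} (ha : a = -10 / 3 ∨ a = 2 / 3) (hb : b = -1 ∨ b = 1) :
    pt a b ∈ closure R := by
  have h1 : (a, b) ∈ closure (Set.Ioo (-10 / 3 : ℝ) (2 / 3) ×ˢ Set.Ioo (-1 : ℝ) 1) := by
    rw [closure_prod_eq, closure_Ioo (by norm_num), closure_Ioo (by norm_num)]
    constructor
    · simp only [Set.mem_Icc]
      rcases ha with h | h <;> rw [h] <;> norm_num
    · simp only [Set.mem_Icc]
      rcases hb with h | h <;> rw [h] <;> norm_num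
  have h2 := image_closure_subset_closure_image continuous_pt (Set.mem_image_of_mem _ h1)
  refine closure_mono ?_ h2
  rintro x ⟨p, hp, rfl⟩
  simp only [Set.mem_prod, Set.mem_Ioo] at hp
  simp only [R, rect, Set.mem_ofPred_eq, pt_zero, pt_one]
  tauto

theorem inner_coord (x y : E 2) : ⟪x, y⟫_ℝ = x 0 * y 0 + x 1 * y 1 := by
  simp [PiLp.inner_apply, Fin.sum_univ_two]
  ring

theorem closure_R_sub : closure R ⊆ {y : E 2 | -10 / 3 ≤ y 0 ∧ y 0 ≤ 2 / 3 ∧ -1 ≤ y 1 ∧ y 1 ≤ 1} := by
  apply closure_minimal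
  · intro y hy
    obtain ⟨h1, h2, h3, h4⟩ := hy
    exact ⟨h1.le, h2.le, h3.le, h4.le⟩
  · have h0 : Continuous fun x : E 2 => x 0 := by fun_prop
    have h1 : Continuous fun x : E 2 => x 1 := by fun_prop
    exact (isClosed_le continuous_const h0).inter ((isClosed_le h0 continuous_const).inter
      ((isClosed_le continuous_const h1).inter (isClosed_le h1 continuous_const)))

theorem mem_dual_iff (x : E 2) : x ∈ polarDual R ↔ |x 1| < hk (x 0) := by
  constructor
  · intro hx
    have k1 := hx _ (corner_mem (Or.inl rfl) (Or.inl rfl))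
    have k2 := hx _ (corner_mem (Or.inl rfl) (Or.inr rfl))
    have k3 := hx _ (corner_mem (Or.inr rfl) (Or.inl rfl))
    have k4 := hx _ (corner_mem (Or.inr rfl) (Or.inr rfl))
    simp only [inner_coord, pt_zero, pt_one] at k1 k2 k3 k4
    rw [hk, lt_min_iff, abs_lt, abs_lt]
    refine ⟨⟨?_, ?_⟩, ?_, ?_⟩ <;> linarith
  · intro hx y hy
    obtain ⟨y1, y2, y3, y4⟩ := closure_R_sub hy
    rw [hk, lt_min_iff] at hx
    obtain ⟨h1, h2⟩ := hx
    rw [inner_coord]
    have h3 : x 1 * y 1 ≤ |x 1| := by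
      calc x 1 * y 1 ≤ |x 1 * y 1| := le_abs_self _
        _ = |x 1| * |y 1| := abs_mul _ _
        _ ≤ |x 1| * 1 := mul_le_mul_of_nonneg_left (abs_le.2 ⟨y3, y4⟩) (abs_nonneg _)
        _ = |x 1| := mul_one _
    rcases le_total 0 (x 0) with h | h
    · have : x 0 * y 0 ≤ x 0 * (2 / 3) := mul_le_mul_of_nonneg_left y2 h
      linarith
    · have : x 0 * y 0 ≤ x 0 * (-10 / 3) := mul_le_mul_of_nonpos_left y1 h
      linarith

theorem kite_int (α β : ℝ) : ∫ x in polarDual R, (α + β * ‖x - pt (2 / 5) 0‖ ^ 2) =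
    9 / 5 * α + 579 / 1000 * β := by
  set G : ℝ × ℝ → ℝ := fun p => α + β * ((p.1 - 2 / 5) ^ 2 + p.2 ^ 2) with hG
  have hGc : Continuous G := by fun_prop
  rw [setIntegral_transfer]
  set D : Set (ℝ × ℝ) := {p : ℝ × ℝ | pt p.1 p.2 ∈ polarDual R} with hD
  have hDm : MeasurableSet D :=
    ((polarDual_isOpen (rect_bdd _ _ _ _)).preimage continuous_pt).measurableSet
  have hmem : ∀ p : ℝ × ℝ, p ∈ D ↔ |p.2| < hk p.1 := by
    intro p
    rw [hD, Set.mem_ofPred_eq, mem_dual_iff]
    simp only [pt_zero, pt_one]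
  have hDsub : D ⊆ Set.Icc (-(3 / 10)) (3 / 2) ×ˢ Set.Icc (-1) 1 := by
    intro p hp
    rw [hmem, hk, lt_min_iff] at hp
    have h0 := abs_nonneg p.2
    have h1 : |p.2| ≤ 1 := by
      rcases le_total 0 p.1 with h | h <;> linarith
    have h2 := abs_le.1 h1
    refine ⟨⟨?_, ?_⟩, h2.1, h2.2⟩ <;> linarith
  have e0 : ∀ p : ℝ × ℝ, α + β * ‖pt p.1 p.2 - pt (2 / 5) 0‖ ^ 2 = G p := by
    intro p
    rw [norm_sq_coord]
    simp only [PiLp.sub_apply, pt_zero, pt_one, hG, sub_zero]
  simp only [e0]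
  have hint : IntegrableOn G D :=
    (hGc.continuousOn.integrableOn_compact (isCompact_Icc.prod isCompact_Icc)).mono_set hDsub
  have hint2 : Integrable (D.indicator G) := hint.integrable_indicator hDm
  rw [← integral_indicator hDm, Measure.volume_eq_prod, integral_prod _ (by
    rw [← Measure.volume_eq_prod]; exact hint2)]
  set J : ℝ → ℝ := fun t => ∫ s, D.indicator G (t, s) with hJ
  have hJint : Integrable J := by
    rw [Measure.volume_eq_prod] at hint2
    exact hint2.integral_prod_left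
  have hJ0 : ∀ t, hk t ≤ 0 → J t = 0 := by
    intro t ht
    simp only [hJ]
    have : ∀ s, D.indicator G (t, s) = 0 := by
      intro s
      apply Set.indicator_of_notMem
      rw [hmem]
      simp only
      have := abs_nonneg s
      linarith
    simp only [this, integral_zero]
  have hJ1 : ∀ t, 0 ≤ hk t → J t = 2 * (α + β * (t - 2 / 5) ^ 2) * hk t +
      2 / 3 * β * hk t ^ 3 := by
    intro t ht
    have h1 : ∀ s, D.indicator G (t, s) =
        (Set.Ioo (-hk t) (hk t)).indicator (fun s => G (t, s)) s := by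
      intro s
      by_cases hs : (t, s) ∈ D
      · rw [Set.indicator_of_mem hs, Set.indicator_of_mem]
        rw [hmem] at hs
        exact abs_lt.1 hs
      · rw [Set.indicator_of_notMem hs, Set.indicator_of_notMem]
        rw [hmem] at hs
        intro hs2
        exact hs (abs_lt.2 hs2)
    simp only [hJ, h1]
    rw [integral_indicator measurableSet_Ioo, ← integral_Ioc_eq_integral_Ioo,
      ← intervalIntegral.integral_of_le (by linarith)]
    have h2 : ∀ s : ℝ, G (t, s) = (α + β * (t - 2 / 5) ^ 2) + 0 * s + β * s ^ 2 + 0 * s ^ 3 := by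
      intro s
      simp only [hG]
      ring
    simp only [h2]
    rw [poly3]
    ring
  have e1 : ∫ t, J t = ∫ t in (-(3 / 10) : ℝ)..(3 / 2), J t := by
    rw [intervalIntegral.integral_of_le (by norm_num)]
    symm
    apply setIntegral_eq_integral_of_forall_compl_eq_zero
    intro t ht
    apply hJ0
    rw [hk]
    rw [Set.mem_Ioc, not_and_or, not_lt, not_le] at ht
    rcases ht with h | h
    · exact (min_le_right _ _).trans (by linarith)
    · exact (min_le_left _ _).trans (by linarith)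
  rw [e1, ← intervalIntegral.integral_add_adjacent_intervals (b := 0) hJint.intervalIntegrable
    hJint.intervalIntegrable]
  have e2 : ∫ t in (-(3 / 10) : ℝ)..0, J t = ∫ t in (-(3 / 10) : ℝ)..0,
      (((2 * α + 2 * β * (4 / 25) + 2 / 3 * β)) +
        (20 / 3 * α + 2 * β * (-(4 / 5) + 4 / 25 * (10 / 3)) + 20 / 3 * β) * t +
        (2 * β * (1 - 4 / 5 * (10 / 3)) + 200 / 9 * β) * t ^ 2 +
        (2 * β * (10 / 3) + 2000 / 81 * β) * t ^ 3) := by
    apply intervalIntegral.integral_congr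
    intro t ht
    rw [Set.uIcc_of_le (by norm_num)] at ht
    obtain ⟨t1, t2⟩ := ht
    have hh : hk t = 1 + 10 / 3 * t := by
      rw [hk]
      exact min_eq_right (by linarith)
    simp only
    rw [hJ1 t (by rw [hh]; linarith), hh]
    ring
  have e3 : ∫ t in (0 : ℝ)..(3 / 2), J t = ∫ t in (0 : ℝ)..(3 / 2),
      ((2 * α + 2 * β * (4 / 25) + 2 / 3 * β) +
        (-(4 / 3) * α + 2 * β * (-(4 / 5) - 4 / 25 * (2 / 3)) - 4 / 3 * β) * t +
        (2 * β * (1 + 4 / 5 * (2 / 3)) + 8 / 9 * β) * t ^ 2 +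
        (-(4 / 3) * β - 16 / 81 * β) * t ^ 3) := by
    apply intervalIntegral.integral_congr
    intro t ht
    rw [Set.uIcc_of_le (by norm_num)] at ht
    obtain ⟨t1, t2⟩ := ht
    have hh : hk t = 1 - 2 / 3 * t := by
      rw [hk]
      exact min_eq_left (by linarith)
    simp only
    rw [hJ1 t (by rw [hh]; linarith), hh]
    ring
  rw [e2, e3, poly3, poly3]
  ring

theorem vol_dual : vol (polarDual R) = 9 / 5 := by
  have h := kite_int 1 0
  have h2 : ∫ x in polarDual R, ((1 : ℝ) + 0 * ‖x - pt (2 / 5) 0‖ ^ 2) =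
      ∫ _ in polarDual R, (1 : ℝ) := by
    simp
  rw [h2, setIntegral_one] at h
  linarith

theorem moment_dual_le : moment (polarDual R) ≤ 579 / 1000 := by
  have h := kite_int 0 1
  have h2 : ∫ x in polarDual R, ((0 : ℝ) + 1 * ‖x - pt (2 / 5) 0‖ ^ 2) =
      ∫ x in polarDual R, ‖x - pt (2 / 5) 0‖ ^ 2 := by
    simp
  rw [h2] at h
  have h3 := moment_le (polarDual_bdd R_InK) (by rw [vol_dual]; norm_num) (pt (2 / 5) 0)
  rw [h] at h3
  linarith

theorem moment_dual_pos : 0 < moment (polarDual R) := by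
  have h := bathtub (polarDual_isOpen (rect_bdd _ _ _ _)).measurableSet (polarDual_bdd R_InK)
  have hv : vol (polarDual R) = 9 / 5 := vol_dual
  have h1 : (9 / 5 : ℝ) ^ 2 ≤ 2 * Real.pi * moment (polarDual R) := by
    rw [← hv]
    exact h
  by_contra h2
  have h3 : moment (polarDual R) ≤ 0 := not_lt.1 h2
  have h4 : 2 * Real.pi * moment (polarDual R) ≤ 0 :=
    mul_nonpos_of_nonneg_of_nonpos (by positivity) h3
  norm_num at h1
  linarith

end Pool.Agent.Lib.MP_050cc1_an
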